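import Pool.Agent.SPH.Stmts
import Pool.Agent.SPG.MU

/-!
# The projection onto `H^{-1,0}` and the elements `μ(z)`
-/

open scoped BigOperators Topology
open Matrix

namespace Pool.Agent.SPH

open Pool.Agent.DRB
open Pool.Agent.DRB.SigX

noncomputable section

namespace HPI_

variable {g : ℕ} (A : AbVar g)

open PosX in
theorem real_zero (x : Idx g → ℝ) (h : zL A (cx x) = 0) : x = 0 := by
  rw [zL_apply] at h
  exact inj A x h

theorem disj {v : Idx g → ℂ} (h1 : v ∈ kk A) (h2 : v ∈ kb A) : v = 0 := by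
  rw [mem_kk] at h1
  rw [mem_kb] at h2
  have hr : PosX.cx (fun i => (v i).re) = (1 / 2 : ℂ) • (v + cv v) := by
    funext i
    simp only [PosX.cx, cv, Pi.smul_apply, Pi.add_apply, smul_eq_mul, Complex.add_conj]
    push_cast
    ring
  have hi : PosX.cx (fun i => (v i).im) = (1 / (2 * Complex.I) : ℂ) • (v - cv v) := by
    funext i
    simp only [PosX.cx, cv, Pi.smul_apply, Pi.sub_apply, smul_eq_mul, Complex.sub_conj]
    push_cast
    have : (Complex.I : ℂ) ≠ 0 := Complex.I_ne_zero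
    field_simp
  have h3 := real_zero A (fun i => (v i).re) (by rw [hr, map_smul, map_add, h1, h2]; simp)
  have h4 := real_zero A (fun i => (v i).im) (by rw [hi, map_smul, map_sub, h1, h2]; simp)
  funext i
  apply Complex.ext
  · simpa using congrFun h3 i
  · simpa using congrFun h4 i

theorem isCompl : IsCompl (kb A) (kk A) := by
  constructor
  · rw [Submodule.disjoint_def]
    intro v h1 h2
    exact disj A h2 h1
  · rw [codisjoint_iff, Submodule.eq_top_iff']
    intro v
    obtain ⟨a, ha, b, hb, rfl⟩ := split A v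
    rw [add_comm]
    exact Submodule.add_mem_sup hb ha

/-- The projection. -/
def pi0 : Matrix (Idx g) (Idx g) ℂ := LinearMap.toMatrix' ((kb A).projection (kk A) (isCompl A))

theorem pi0_apply (v : Idx g → ℂ) : pi0 A *ᵥ v = (kb A).projection (kk A) (isCompl A) v := by
  rw [pi0, ← Matrix.toLin'_apply, Matrix.toLin'_toMatrix']

theorem pi0_kb {v : Idx g → ℂ} (hv : v ∈ kb A) : pi0 A *ᵥ v = v := by
  rw [pi0_apply]; exact Submodule.projection_apply_of_mem_left (isCompl A) hv

theorem pi0_kk {v : Idx g → ℂ} (hv : v ∈ kk A) : pi0 A *ᵥ v = 0 := by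
  rw [pi0_apply]; exact Submodule.projection_apply_of_mem_right (isCompl A) hv

theorem ext_split {M N : Matrix (Idx g) (Idx g) ℂ} (h1 : ∀ v ∈ kk A, M *ᵥ v = N *ᵥ v)
    (h2 : ∀ v ∈ kb A, M *ᵥ v = N *ᵥ v) : M = N := by
  apply Matrix.ext_of_mulVec_single
  intro j
  obtain ⟨a, ha, b, hb, e⟩ := split A (Pi.single j 1)
  rw [e, Matrix.mulVec_add, Matrix.mulVec_add, h1 a ha, h2 b hb]

theorem pi0_sq : pi0 A * pi0 A = pi0 A := by
  refine ext_split A (fun v hv => ?_) (fun v hv => ?_)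
  · rw [← Matrix.mulVec_mulVec, pi0_kk A hv, Matrix.mulVec_zero]
  · rw [← Matrix.mulVec_mulVec, pi0_kb A hv, pi0_kb A hv]

theorem mem_kk_iff (v : Idx g → ℂ) : v ∈ kk A ↔ pi0 A *ᵥ v = 0 := by
  refine ⟨fun h => pi0_kk A h, fun h => ?_⟩
  obtain ⟨a, ha, b, hb, rfl⟩ := split A v
  rw [Matrix.mulVec_add, pi0_kk A ha, pi0_kb A hb, zero_add] at h
  rw [h, add_zero]
  exact ha

theorem mem_kb_iff (v : Idx g → ℂ) : v ∈ kb A ↔ pi0 A *ᵥ v = v := by
  refine ⟨fun h => pi0_kb A h, fun h => ?_⟩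
  obtain ⟨a, ha, b, hb, rfl⟩ := split A v
  rw [Matrix.mulVec_add, pi0_kk A ha, pi0_kb A hb, zero_add] at h
  rw [← h]
  exact hb

theorem isMu_iff (z : ℂˣ) (x : GL (Idx g) ℂ) : A.IsMu z x ↔ x.val = 1 + (z.val - 1) • pi0 A := by
  constructor
  · intro h
    refine ext_split A (fun v hv => ?_) (fun v hv => ?_)
    · rw [SPG.MU_.mu_kk h hv, Matrix.add_mulVec, Matrix.one_mulVec, Matrix.smul_mulVec, pi0_kk A hv,
        smul_zero, add_zero]
    · rw [SPG.MU_.mu_kb h hv, Matrix.add_mulVec, Matrix.one_mulVec, Matrix.smul_mulVec, pi0_kb A hv]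
      module
  · intro h
    constructor
    · intro v hv
      have hv' : v ∈ kk A := by
        rw [mem_kk]
        funext k
        exact hv k
      rw [h, Matrix.add_mulVec, Matrix.one_mulVec, Matrix.smul_mulVec, pi0_kk A hv', smul_zero,
        add_zero]
    · intro v hv
      have hv' : v ∈ kb A := by
        rw [mem_kb]
        funext k
        exact hv k
      rw [h, Matrix.add_mulVec, Matrix.one_mulVec, Matrix.smul_mulVec, pi0_kb A hv']
      module

theorem mul_aux {π : Matrix (Idx g) (Idx g) ℂ} (hπ : π * π = π) (z w : ℂ) (h : z * w = 1) :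
    (1 + (z - 1) • π) * (1 + (w - 1) • π) = 1 := by
  rw [Matrix.add_mul, Matrix.mul_add, Matrix.mul_add, Matrix.one_mul, Matrix.one_mul, Matrix.mul_one,
    Matrix.smul_mul, Matrix.mul_smul, hπ, smul_smul]
  have : (z - 1) * (w - 1) = 2 - z - w := by
    linear_combination h
  rw [this]
  module

theorem exists_mu (z : ℂˣ) : ∃ x : GL (Idx g) ℂ, A.IsMu z x := by
  refine ⟨⟨1 + (z.val - 1) • pi0 A, 1 + ((z⁻¹).val - 1) • pi0 A, ?_, ?_⟩, (isMu_iff A z _).2 rfl⟩
  · refine mul_aux (pi0_sq A) _ _ ?_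
    rw [← Units.val_mul, mul_inv_cancel, Units.val_one]
  · refine mul_aux (pi0_sq A) _ _ ?_
    rw [← Units.val_mul, inv_mul_cancel, Units.val_one]

end HPI_

open HPI_ in
theorem hpi_proof : Stmt_HPI := by
  intro g A
  refine ⟨pi0 A, pi0_sq A, mem_kk_iff A, mem_kb_iff A, isMu_iff A, exists_mu A, ?_⟩
  intro σ z q h1 h2
  let w : ℂˣ := Units.map (σ.symm : ℂ →* ℂ) z
  have hw : σ w.val = z.val := by
    show σ (σ.symm z.val) = z.val
    exact σ.apply_symm_apply _
  obtain ⟨x, hx⟩ := exists_mu A w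
  refine Subgroup.subset_closure ⟨σ, w, x, hx, ?_, by rw [h2, hw]⟩
  rw [h1, (isMu_iff A w x).1 hx]
  ext i j
  simp only [Matrix.add_apply, Matrix.smul_apply, Matrix.map_apply, smul_eq_mul, map_add, map_mul,
    map_sub, map_one, hw]
  congr 1
  by_cases h : i = j
  · subst h
    simp
  · simp [h]

end

end Pool.Agent.SPH
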