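import Pool.Agent.DRB.Defs5
import Pool.Agent.DRB.Stmts3
import Pool.Agent.DRB.Sig
import Pool.Agent.SPG.Stmts
import Pool.Agent.SPF.OutStmts

/-!
# De Rham-Betti conjecture: the Mumford-Tate group of abelian varieties of rank at most two

Exact statements of the modules.  Recipes: /team-store/MP_470b79_SPH.md.  Goal: rational sub-Hodge structures
of tensor spaces are de Rham-Betti subobjects (`MainStatement6`).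
-/

open scoped BigOperators Topology
open Matrix

namespace Pool.Agent.SPH

open Pool.Agent.DRB
open Pool.Agent.DRB.SigX (kk kb mem_kk mem_kb)

noncomputable section

/-- A family of groups, for example `@Gam` or `@MTg`. -/
abbrev GFam := ∀ {g : ℕ}, AbVar g → Subgroup (GL (Idx g) ℂ × ℂˣ)

/-- The (abstract) Mumford-Tate group: generated by the conjugates of the `μ(z)`. -/
def MTg {g : ℕ} (A : AbVar g) : Subgroup (GL (Idx g) ℂ × ℂˣ) :=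
  Subgroup.closure {p | ∃ (σ : ℂ ≃ₐ[ℚ] ℂ) (z : ℂˣ) (x : GL (Idx g) ℂ), A.IsMu z x ∧
    p.1.val = x.val.map σ ∧ p.2.val = σ z.val}

/-! ## Generic statements for a family of groups -/

def GB1 (Γ : GFam) : Prop :=
  ∀ (g : ℕ) (A : AbVar g), ∀ p ∈ Γ A,
    (∀ α ∈ A.EndQ, p.1.val * AbVar.toC α = AbVar.toC α * p.1.val) ∧
    p.1.valᵀ * A.riem * p.1.val = p.2.val • A.riem

def GB4 (Γ : GFam) : Prop :=
  ∀ (g : ℕ) (A : AbVar g) (σ : ℂ ≃ₐ[ℚ] ℂ), ∀ p ∈ Γ A, ∀ q : GL (Idx g) ℂ × ℂˣ,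
    q.1.val = p.1.val.map σ → q.2.val = σ p.2.val → q ∈ Γ A

/-- Elements with a finite orbit are combinations of endomorphisms. -/
def GFIN (Γ : GFam) : Prop :=
  ∀ (g : ℕ) (A : AbVar g) (X : Matrix (Idx g) (Idx g) ℂ),
    {Y | ∃ p ∈ Γ A, Y = p.1.val * X * (p.1⁻¹).val}.Finite →
    X ∈ Submodule.span ℂ {Y | ∃ α ∈ A.EndQ, Y = AbVar.toC α}

/-- Stable rational subspaces are images of symmetric idempotent endomorphisms. -/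
def GT1E (Γ : GFam) : Prop :=
  ∀ (g : ℕ) (A : AbVar g) (D : Submodule ℂ (Idx g → ℂ)), RatSpan D →
    (∀ p ∈ Γ A, D.map p.1.val.mulVecLin ≤ D) →
    ∃ α, A.IsEnd α ∧ α * α = α ∧ A.IsRosati α α ∧ ∀ v, v ∈ D ↔ AbVar.toC α *ᵥ v = v

def GFINX (Γ : GFam) : Prop :=
  ∀ (g : ℕ) (A : AbVar g) (d : Dec A),
    (∀ i j, i ≠ j → ∀ P : Matrix (Fin (d.m i)) (Fin (d.m j)) ℂ,
      {Y | ∃ q ∈ Γ A, Y = d.X q.1.val i * P * d.X (q.1⁻¹).val j}.Finite → P = 0) ∧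
    ∀ i, ∀ P : Matrix (Fin (d.m i)) (Fin (d.m i)) ℂ,
      {Y | ∃ q ∈ Γ A, Y = d.X q.1.val i * P * d.X (q.1⁻¹).val i}.Finite → ∃ c : ℂ, P = c • 1

def GIRR3 (Γ : GFam) : Prop :=
  ∀ (g : ℕ) (A : AbVar g) (p : Matrix (Idx g) (Idx g) ℂ), A.IsComp p →
    ∀ U : Submodule ℂ (Idx g → ℂ), (∀ v ∈ U, p *ᵥ v = v) →
      (∀ α, A.IsEnd α → ∀ v ∈ U, AbVar.toC α *ᵥ v ∈ U) →
      (∀ q ∈ Γ A, ∀ v ∈ U, q.1.val *ᵥ v ∈ U) →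
      U = ⊥ ∨ ∀ v, p *ᵥ v = v → v ∈ U

def GIRRX (Γ : GFam) : Prop :=
  ∀ (g : ℕ) (A : AbVar g) (d : Dec A) (i : Fin d.k) (L : Submodule ℂ (Fin (d.m i) → ℂ)),
    (∀ q ∈ Γ A, ∀ v ∈ L, d.X q.1.val i *ᵥ v ∈ L) → L = ⊥ ∨ L = ⊤

def GTORS (Γ : GFam) : Prop :=
  ∀ (g : ℕ) (A : AbVar g) (d : Dec A) (i : Fin d.k), d.m i = 2 →
    ∃ q ∈ Γ A, ∀ n : ℕ, 1 ≤ n → ¬ ∃ c : ℂ, d.X q.1.val i ^ n = c • 1

def GLNK (Γ : GFam) : Prop :=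
  ∀ (g : ℕ) (A : AbVar g), A.Rank2CM → ∀ (d : Dec A) (i j : Fin d.k), d.m i = 2 → d.m j = 2 → i ≠ j →
    d.p j ≠ cc (d.p i) →
    ∀ P : Matrix (Fin (d.m i)) (Fin (d.m j)) ℂ, P ≠ 0 →
      ∃ q ∈ Γ A, ∀ a : ℂ, d.X q.1.val i * P * d.X (q.1⁻¹).val j ≠ a • P

def GH54A (Γ : GFam) : Prop :=
  ∀ (g : ℕ) (A : AbVar g), A.Rank2CM → ∀ (d : Dec A) (n : Fin d.k → ℤ) (M : ℤ),
    (∀ i, cc (d.p i) = d.p i → n i = 0) →
    (∀ q ∈ Γ A, ∃ N : ℕ, 1 ≤ N ∧ ((∏ i, (d.X q.1.val i).det ^ n i) * q.2.val ^ M) ^ N = 1) →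
    ∀ i j, d.p j = cc (d.p i) → d.m i = 2 → n j = n i

def GH54B (Γ : GFam) : Prop :=
  ∀ (g : ℕ) (A : AbVar g), A.Rank2CM → ∀ (n : Matrix (Idx g) (Idx g) ℂ →₀ ℤ) (m : ℤ),
    (∀ p ∈ n.support, A.IsCM p) →
    (∀ q ∈ Γ A, ∃ N : ℕ, 1 ≤ N ∧ ∀ y : Matrix (Idx g) (Idx g) ℂ → ℂ,
      (∀ p ∈ n.support, q.1.val * p = y p • p) →
        ((n.prod fun p k => y p ^ k) * q.2.val ^ m) ^ N = 1) →
    A.IsHodgeChar n m

/-- Stable subspaces of tensor spaces are stable under the big group. -/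
def GMAIN (Γ : GFam) : Prop :=
  ∀ (g : ℕ) (A : AbVar g), A.Rank2CM → ∀ (t : TData) (D : Submodule ℂ (TIdx t (Idx g) → ℂ)),
    (∀ q ∈ Γ A, D.map (TAct t q.1.val q.2.val) ≤ D) →
    ∀ (x : GL (Idx g) ℂ) (ν : ℂˣ), A.Comm x.val → x.valᵀ * A.riem * x.val = ν.val • A.riem →
      A.HodgeRels x ν → D.map (TAct t x.val ν.val) = D

/-! ## The modules -/

/-- HPI. The projection onto `H^{-1,0}` and the elements `μ(z)`. -/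
def Stmt_HPI : Prop :=
  ∀ (g : ℕ) (A : AbVar g), ∃ π : Matrix (Idx g) (Idx g) ℂ, π * π = π ∧
    (∀ v, v ∈ kk A ↔ π *ᵥ v = 0) ∧ (∀ v, v ∈ kb A ↔ π *ᵥ v = v) ∧
    (∀ (z : ℂˣ) (x : GL (Idx g) ℂ), A.IsMu z x ↔ x.val = 1 + (z.val - 1) • π) ∧
    (∀ z : ℂˣ, ∃ x : GL (Idx g) ℂ, A.IsMu z x) ∧
    ∀ (σ : ℂ ≃ₐ[ℚ] ℂ) (z : ℂˣ) (q : GL (Idx g) ℂ × ℂˣ),
      q.1.val = 1 + (z.val - 1) • π.map σ → q.2 = z → q ∈ MTg A

/-- HFIN. -/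
def Stmt_HFIN : Prop := GFIN @MTg

/-- HT1E. -/
def Stmt_HT1E : Prop := GT1E @MTg

/-- HTORS. -/
def Stmt_HTORS : Prop := GTORS @MTg

/-- HLNK. -/
def Stmt_HLNK : Prop := GLNK @MTg

/-- H54AH. -/
def Stmt_H54AH : Prop := GH54A @MTg

/-- H54BH. -/
def Stmt_H54BH : Prop := GH54B @MTg

/-- GB3T. Rational subspaces of tensor spaces stable under `Γ` are de Rham-Betti subobjects. -/
def Stmt_GB3T : Prop :=
  ∀ (g : ℕ) (A : AbVar g) (t : TData) (D : Submodule ℂ (TIdx t (Idx g) → ℂ)), RatSpan D →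
    (∀ q ∈ Gam A, D.map (TAct t q.1.val q.2.val) ≤ D) → IsDRB A t D

/-- The final statement. -/
def MainStatement6 : Prop :=
  ∀ (g : ℕ) (A : AbVar g), A.Rank2CM →
    (∀ (x : GL (Idx g) ℂ) (ν : ℂˣ), InGdRB A x ν ↔
      (A.Comm x.val ∧ x.valᵀ * A.riem * x.val = ν.val • A.riem ∧ A.HodgeRels x ν)) ∧
    ∀ (t : TData) (D : Submodule ℂ (TIdx t (Idx g) → ℂ)), IsDRB A t D ↔ IsHodge A t D

end

end Pool.Agent.SPH
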