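import Pool.Agent.SPH.Stmts
import Pool.Agent.SPG.MU
import Pool.Agent.DRB.Gb2
import Pool.Agent.DRB.Gb4

/-!
# Basic properties of the group generated by the conjugates of `μ`
-/

open scoped BigOperators Topology
open Matrix

namespace Pool.Agent.SPH

open Pool.Agent.DRB

noncomputable section

namespace HB_

variable {g : ℕ}

open GB4X in
theorem mapHom_mem (A : AbVar g) (σ : ℂ ≃ₐ[ℚ] ℂ) (p : GL (Idx g) ℂ × ℂˣ)
    (hp : p ∈ MTg A) : mapHom σ p ∈ MTg A := by
  unfold MTg at hp
  refine Subgroup.closure_induction (p := fun x _ => mapHom σ x ∈ MTg A) ?_ ?_ ?_ ?_ hp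
  · rintro x ⟨σ', z, y, hy, h1, h2⟩
    refine Subgroup.subset_closure ⟨σ * σ', z, y, hy, ?_, ?_⟩
    · rw [mapHom_fst, h1]
      ext i j
      rw [Matrix.map_apply, Matrix.map_apply, Matrix.map_apply, AlgEquiv.mul_apply]
    · rw [mapHom_snd, h2]
      rfl
  · rw [map_one]
    exact Subgroup.one_mem _
  · intro x y _ _ hx hy
    rw [map_mul]
    exact Subgroup.mul_mem _ hx hy
  · intro x _ hx
    rw [map_inv]
    exact Subgroup.inv_mem _ hx

theorem toC_map (σ : ℂ ≃ₐ[ℚ] ℂ) (α : Matrix (Idx g) (Idx g) ℚ) :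
    (AbVar.toC α).map σ = AbVar.toC α := by
  ext i j
  simp only [AbVar.toC, Matrix.map_apply]
  exact σ.commutes _

theorem riem_map (hLeg : Stmt_Leg) (A : AbVar g) (σ : ℂ ≃ₐ[ℚ] ℂ) : A.riem.map σ = A.riem := by
  obtain ⟨h, -, -, -⟩ := hLeg g A
  ext i j
  obtain ⟨n, hn⟩ := h i j
  rw [Matrix.map_apply, hn, map_intCast]

theorem smul_map (σ : ℂ ≃ₐ[ℚ] ℂ) (c : ℂ) (M : Matrix (Idx g) (Idx g) ℂ) :
    (c • M).map σ = σ c • M.map σ := by
  ext i j
  simp only [Matrix.map_apply, Matrix.smul_apply, smul_eq_mul, map_mul]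

end HB_

open HB_ in
theorem hb4_proof : GB4 @MTg := by
  intro g A σ p hp q h1 h2
  have h3 : q = GB4X.mapHom σ p := by
    refine Prod.ext (Units.ext ?_) (Units.ext ?_)
    · rw [h1, GB4X.mapHom_fst]
    · rw [h2, GB4X.mapHom_snd]
  rw [h3]
  exact mapHom_mem A σ p hp

open HB_ in
theorem hb1_proof (hLeg : Stmt_Leg) : GB1 @MTg := by
  intro g A p hp
  unfold MTg at hp
  refine Subgroup.closure_induction (p := fun p _ =>
    (∀ α ∈ A.EndQ, p.1.val * AbVar.toC α = AbVar.toC α * p.1.val) ∧
    p.1.valᵀ * A.riem * p.1.val = p.2.val • A.riem) ?_ ?_ ?_ ?_ hp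
  · rintro x ⟨σ, z, y, hy, h1, h2⟩
    constructor
    · intro α hα
      have h3 := congrArg (fun M : Matrix (Idx g) (Idx g) ℂ => M.map σ) (SPG.MU_.mu_comm hy α hα)
      simp only [Matrix.map_mul, toC_map] at h3
      rw [h1]
      exact h3
    · have h3 := congrArg (fun M : Matrix (Idx g) (Idx g) ℂ => M.map σ) (SPG.MU_.mu_sim hLeg hy)
      simp only [Matrix.map_mul, riem_map hLeg, smul_map] at h3
      rw [h1, h2, ← h3, Matrix.transpose_map]
  · constructor
    · intro α _
      simp
    · simp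
  · intro x y _ _ hx hy
    constructor
    · intro α hα
      rw [Prod.fst_mul, Units.val_mul, Matrix.mul_assoc, hy.1 α hα, ← Matrix.mul_assoc, hx.1 α hα,
        Matrix.mul_assoc]
    · rw [Prod.fst_mul, Prod.snd_mul, Units.val_mul, Units.val_mul, Matrix.transpose_mul]
      calc y.1.valᵀ * x.1.valᵀ * A.riem * (x.1.val * y.1.val)
          = y.1.valᵀ * (x.1.valᵀ * A.riem * x.1.val) * y.1.val := by
            simp only [Matrix.mul_assoc]
        _ = (x.2.val * y.2.val) • A.riem := by
            rw [hx.2, Matrix.mul_smul, Matrix.smul_mul, hy.2, smul_smul]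
  · intro x _ hx
    have e1 : (x.1⁻¹).val * x.1.val = 1 := by
      rw [← Units.val_mul, inv_mul_cancel]; rfl
    have e2 : x.1.val * (x.1⁻¹).val = 1 := by
      rw [← Units.val_mul, mul_inv_cancel]; rfl
    constructor
    · intro α hα
      have hc : A.Comm x.1.val := hx.1
      exact Dec.comm_inv hc α hα
    · rw [Prod.fst_inv, Prod.snd_inv]
      have h3 : A.riem = x.2.val • ((x.1⁻¹).valᵀ * A.riem * (x.1⁻¹).val) := by
        have h4 : (x.1⁻¹).valᵀ * (x.1.valᵀ * A.riem * x.1.val) * (x.1⁻¹).val = A.riem := by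
          calc (x.1⁻¹).valᵀ * (x.1.valᵀ * A.riem * x.1.val) * (x.1⁻¹).val
              = (x.1.val * (x.1⁻¹).val)ᵀ * A.riem * (x.1.val * (x.1⁻¹).val) := by
                rw [Matrix.transpose_mul]; simp only [Matrix.mul_assoc]
            _ = A.riem := by rw [e2]; simp
        rw [hx.2, Matrix.mul_smul, Matrix.smul_mul] at h4
        exact h4.symm
      have h5 : (x.2⁻¹).val * x.2.val = 1 := by
        rw [← Units.val_mul, inv_mul_cancel, Units.val_one]
      conv_rhs => rw [h3]
      rw [smul_smul, h5, one_smul]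

/-- Sub-Hodge structures of tensor spaces are stable. -/
theorem hb2_proof {g : ℕ} (A : AbVar g) (t : TData) (D : Submodule ℂ (TIdx t (Idx g) → ℂ))
    (hD : IsHodge A t D) : ∀ q ∈ MTg A, D.map (TAct t q.1.val q.2.val) ≤ D := by
  intro p hp
  have key : D.map (TAct t p.1.val p.2.val) = D := by
    unfold MTg at hp
    refine Subgroup.closure_induction
      (p := fun p _ => D.map (TAct t p.1.val p.2.val) = D) ?_ ?_ ?_ ?_ hp
    · rintro x ⟨σ, z, y, hy, h1, h2⟩
      have hle : D.map (TAct t x.1.val x.2.val) ≤ D := by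
        rintro _ ⟨v, hv, rfl⟩
        rw [h1, h2]
        have h3 : (fun k => σ.symm (v k)) ∈ D := GB3X.ratSpan_stable D hD.1 σ.symm v hv
        have h4 : TAct t y.val z.val (fun k => σ.symm (v k)) ∈ D := by
          rw [← hD.2 z y hy]
          refine ⟨fun k => σ.symm (v k), h3, rfl⟩
        have h5 := GB3X.ratSpan_stable D hD.1 σ _ h4
        rw [GB2X.map_TAct] at h5
        have h6 : (fun k => σ ((fun k => σ.symm (v k)) k)) = v := by
          funext k
          simp
        rw [h6] at h5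
        exact h5
      have hinj : Function.Injective (TAct t x.1.val x.2.val) := by
        intro v w hvw
        have h3 : TAct t (x.1⁻¹).val (x.2⁻¹ : ℂˣ).val (TAct t x.1.val x.2.val v) =
            TAct t (x.1⁻¹).val (x.2⁻¹ : ℂˣ).val (TAct t x.1.val x.2.val w) := by rw [hvw]
        rw [← LinearMap.comp_apply, ← LinearMap.comp_apply, ← TAct_comp, ← Units.val_mul,
          ← Units.val_mul, inv_mul_cancel, inv_mul_cancel, Units.val_one, Units.val_one,
          TAct_one] at h3
        exact h3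
      refine Submodule.eq_of_le_of_finrank_eq hle ?_
      exact (LinearEquiv.finrank_eq (Submodule.equivMapOfInjective _ hinj D)).symm
    · simp only [Prod.fst_one, Prod.snd_one, Units.val_one]
      rw [TAct_one, Submodule.map_id]
    · intro x y _ _ hx hy
      simp only [Prod.fst_mul, Prod.snd_mul, Units.val_mul]
      rw [TAct_comp, Submodule.map_comp, hy, hx]
    · intro x _ hx
      simp only [Prod.fst_inv, Prod.snd_inv]
      conv_lhs => rw [← hx]
      rw [← Submodule.map_comp, ← TAct_comp, ← Units.val_mul,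
          ← Units.val_mul, inv_mul_cancel, inv_mul_cancel, Units.val_one, Units.val_one,
          TAct_one, Submodule.map_id]
  exact key.le

/-- The final statement from the two main theorems. -/
theorem main6_proof (h5 : MainStatement5) (hM : GMAIN @MTg) (hGb2 : Stmt_Gb2) (hG : Stmt_GB3T) :
    MainStatement6 := by
  intro g A hA
  refine ⟨(h5 g A hA).1, fun t D => ⟨(h5 g A hA).2 t D, fun hD => ?_⟩⟩
  refine hG g A t D hD.1 fun q hq => ?_
  have hq' : InGdRB A q.1 q.2 := by
    intro t' D' hD'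
    have hle := hGb2 g A t' D' hD' q hq
    have hinj : Function.Injective (TAct t' q.1.val q.2.val) := by
      intro v w hvw
      have h3 : TAct t' (q.1⁻¹).val (q.2⁻¹ : ℂˣ).val (TAct t' q.1.val q.2.val v) =
          TAct t' (q.1⁻¹).val (q.2⁻¹ : ℂˣ).val (TAct t' q.1.val q.2.val w) := by rw [hvw]
      rw [← LinearMap.comp_apply, ← LinearMap.comp_apply, ← TAct_comp, ← Units.val_mul,
        ← Units.val_mul, inv_mul_cancel, inv_mul_cancel, Units.val_one, Units.val_one,
        TAct_one] at h3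
      exact h3
    refine Submodule.eq_of_le_of_finrank_eq hle ?_
    exact (LinearEquiv.finrank_eq (Submodule.equivMapOfInjective _ hinj D')).symm
  obtain ⟨h1, h2, h3⟩ := ((h5 g A hA).1 q.1 q.2).1 hq'
  exact (hM g A hA t D (hb2_proof A t D hD) q.1 q.2 h1 h2 h3).le

end

end Pool.Agent.SPH
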