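import Pool.Agent.SPH.Stmts
import Pool.Agent.DRB.Gb2
import Pool.Agent.DRB.Gb3

/-!
# SPH, module GB3T: rational subspaces of tensor spaces stable under `Γ` are de Rham-Betti subobjects
-/

open scoped BigOperators Topology
open Matrix

namespace Pool.Agent.SPH

open Pool.Agent.DRB

noncomputable section

theorem gb3t_proof (h1 : DRB.Stmt_DescA) : Stmt_GB3T := by
  intro g A t D hD hG
  refine ⟨hD, h1 _ _ ?_⟩
  rintro τ hτ _ ⟨w, hw, rfl⟩
  obtain ⟨p, hp, hp1, hp2⟩ := GB3X.exists_coc A hτ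
  have h2 : (fun k => τ (w k)) ∈ D := GB3X.ratSpan_stable D hD τ w hw
  have h3 : TAct t p.1.val p.2.val (fun k => τ (w k)) ∈ D := hG p hp ⟨_, h2, rfl⟩
  refine ⟨_, h3, ?_⟩
  have h4 : (2 * (Real.pi : ℂ) * Complex.I) * (τ tpi / tpi) = τ (2 * (Real.pi : ℂ) * Complex.I) :=
    mul_div_cancel₀ _ tpi_ne_zero
  rw [GB2X.map_TAct, hp1, hp2, ← LinearMap.comp_apply, ← TAct_comp, ← Matrix.mul_assoc,
    GB3X.per_mul_inv, Matrix.one_mul, h4]

end

end Pool.Agent.SPH
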