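import Pool.Agent.SPH.Stmts
import Pool.Agent.DRB.FinX

/-!
# De Rham-Betti conjecture: finite orbits for a family of groups
-/

open scoped BigOperators
open Matrix

namespace Pool.Agent.SPH

open Pool.Agent.DRB Pool.Agent.DRB.FinXX

noncomputable section

namespace GFinXX

variable {g : ℕ} {A : AbVar g} {Γ : GFam} (d : Dec A)

/-- if the orbit of `P` is finite, `T i j P Q` is an endomorphism -/
theorem mem_endC (hF : GFIN Γ) (hG : GB1 Γ) (i j : Fin d.k)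
    (P : Matrix (Fin (d.m i)) (Fin (d.m j)) ℂ) (Q : Matrix (Fin (d.n i)) (Fin (d.n j)) ℂ)
    (h : {Y | ∃ q ∈ Γ A, Y = d.X q.1.val i * P * d.X (q.1⁻¹).val j}.Finite) :
    d.T i j P Q ∈ A.EndC := by
  have h1 : {Y | ∃ p ∈ Γ A, Y = p.1.val * d.T i j P Q * (p.1⁻¹).val}.Finite := by
    refine (h.image fun R => d.T i j R Q).subset ?_
    rintro Y ⟨q, hq, rfl⟩
    have hc : A.Comm q.1.val := (hG g A q hq).1
    refine ⟨_, ⟨q, hq, rfl⟩, ?_⟩
    rw [d.mul_T hc, d.T_mul (Dec.comm_inv hc)]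
  have h2 := hF g A _ h1
  refine Submodule.span_mono ?_ h2
  rintro Y ⟨α, hα, rfl⟩
  exact ⟨α, hα, rfl⟩

end GFinXX

open GFinXX in
theorem gfinx_proof {Γ : GFam} (hF : GFIN Γ) (hG : GB1 Γ) : GFINX Γ := by
  intro g A d
  refine ⟨fun i j hij P h => ?_, fun i P h => ?_⟩
  · have h1 := mem_endC d hF hG i j P
      (Matrix.single ⟨0, d.npos i⟩ ⟨0, d.npos j⟩ 1) h
    obtain ⟨Y, hY⟩ := (d.hE _).1 h1
    ext a' a
    have h2 := repr_T d i j P (Matrix.single ⟨0, d.npos i⟩ ⟨0, d.npos j⟩ 1) a ⟨0, d.npos j⟩ a'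
      ⟨0, d.npos i⟩
    rw [repr_end_ne d Y hY i j hij, Matrix.single_apply_same, mul_one] at h2
    rw [← h2, Matrix.zero_apply]
  · have h1 := mem_endC d hF hG i i P
      (Matrix.single ⟨0, d.npos i⟩ ⟨0, d.npos i⟩ 1) h
    obtain ⟨Y, hY⟩ := (d.hE _).1 h1
    refine ⟨Y i ⟨0, d.npos i⟩ ⟨0, d.npos i⟩, ?_⟩
    ext a' a
    have h2 := repr_T d i i P (Matrix.single ⟨0, d.npos i⟩ ⟨0, d.npos i⟩ 1) a ⟨0, d.npos i⟩ a'
      ⟨0, d.npos i⟩
    rw [repr_end d Y hY i, Matrix.single_apply_same, mul_one] at h2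
    rw [← h2, Matrix.smul_apply, Matrix.one_apply, smul_eq_mul]
    split_ifs <;> simp

end

end Pool.Agent.SPH
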