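import Pool.Agent.SPH.Stmts

/-!
# De Rham-Betti conjecture: irreducibility of the components for a family of groups
-/

set_option autoImplicit false

open scoped BigOperators Topology
open Matrix

namespace Pool.Agent.SPH

open Pool.Agent.DRB

noncomputable section

namespace GIrr3X

variable {g : ℕ} {Γ : GFam}

/-- the action of an automorphism of `ℂ` on vectors -/
def sv (σ : ℂ ≃ₐ[ℚ] ℂ) (v : Idx g → ℂ) : Idx g → ℂ := fun k => σ (v k)

theorem sv_mulVec (σ : ℂ ≃ₐ[ℚ] ℂ) (M : Matrix (Idx g) (Idx g) ℂ) (v : Idx g → ℂ) :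
    sv σ (M *ᵥ v) = (M.map σ) *ᵥ (sv σ v) := by
  funext k
  simp only [sv, Matrix.mulVec, dotProduct, map_sum, map_mul, Matrix.map_apply]

theorem toC_map (σ : ℂ ≃ₐ[ℚ] ℂ) (α : Matrix (Idx g) (Idx g) ℚ) :
    (AbVar.toC α).map σ = AbVar.toC α := by
  ext i j
  simp only [AbVar.toC, Matrix.map_apply]
  exact σ.commutes _

theorem sv_symm (σ : ℂ ≃ₐ[ℚ] ℂ) (v : Idx g → ℂ) : sv σ (sv σ.symm v) = v := by
  funext k; simp [sv]

theorem sv_symm' (σ : ℂ ≃ₐ[ℚ] ℂ) (v : Idx g → ℂ) : sv σ.symm (sv σ v) = v := by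
  funext k; simp [sv]

/-- the image of a subspace under an automorphism of `ℂ` -/
def smap (σ : ℂ ≃ₐ[ℚ] ℂ) (U : Submodule ℂ (Idx g → ℂ)) : Submodule ℂ (Idx g → ℂ) where
  carrier := {v | sv σ.symm v ∈ U}
  add_mem' := by
    intro v w hv hw
    have e : sv σ.symm (v + w) = sv σ.symm v + sv σ.symm w := by
      funext k; simp [sv]
    show sv σ.symm (v + w) ∈ U
    rw [e]
    exact U.add_mem hv hw
  zero_mem' := by
    have e : sv σ.symm (0 : Idx g → ℂ) = 0 := by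
      funext k; simp [sv]
    show sv σ.symm 0 ∈ U
    rw [e]
    exact U.zero_mem
  smul_mem' := by
    intro c v hv
    have e : sv σ.symm (c • v) = σ.symm c • sv σ.symm v := by
      funext k; simp [sv]
    show sv σ.symm (c • v) ∈ U
    rw [e]
    exact U.smul_mem _ hv

theorem mem_smap (σ : ℂ ≃ₐ[ℚ] ℂ) (U : Submodule ℂ (Idx g → ℂ)) (v : Idx g → ℂ) :
    v ∈ smap σ U ↔ sv σ.symm v ∈ U := Iff.rfl

theorem smap_mono (σ : ℂ ≃ₐ[ℚ] ℂ) {U W : Submodule ℂ (Idx g → ℂ)} (h : U ≤ W) :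
    smap σ U ≤ smap σ W := fun _ hv => h hv

theorem smap_bot (σ : ℂ ≃ₐ[ℚ] ℂ) : smap σ (⊥ : Submodule ℂ (Idx g → ℂ)) = ⊥ := by
  rw [Submodule.eq_bot_iff]
  intro v hv
  have h1 : sv σ.symm v = 0 := hv
  have h2 := congrArg (sv σ) h1
  rw [sv_symm] at h2
  rw [h2]
  funext k; simp [sv]

theorem smap_symm (σ : ℂ ≃ₐ[ℚ] ℂ) (U : Submodule ℂ (Idx g → ℂ)) :
    smap σ (smap σ.symm U) = U := by
  ext v
  rw [mem_smap, mem_smap, AlgEquiv.symm_symm, sv_symm]

/-- stable subspaces -/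
def Stab (Γ : GFam) (A : AbVar g) (U : Submodule ℂ (Idx g → ℂ)) : Prop :=
  (∀ α, A.IsEnd α → ∀ v ∈ U, AbVar.toC α *ᵥ v ∈ U) ∧ ∀ q ∈ Γ A, ∀ v ∈ U, q.1.val *ᵥ v ∈ U

theorem Stab.smap {A : AbVar g} (h4 : GB4 Γ) (σ : ℂ ≃ₐ[ℚ] ℂ) {U : Submodule ℂ (Idx g → ℂ)}
    (hU : Stab Γ A U) : Stab Γ A (GIrr3X.smap σ U) := by
  constructor
  · intro α hα v hv
    rw [mem_smap, sv_mulVec, toC_map]
    exact hU.1 α hα _ hv
  · intro p hp v hv
    let q : GL (Idx g) ℂ × ℂˣ :=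
      (Matrix.GeneralLinearGroup.map (σ.symm : ℂ →+* ℂ) p.1, Units.map (σ.symm : ℂ →* ℂ) p.2)
    have hq : q ∈ Γ A := h4 g A σ.symm p hp q (by ext i j; rfl) rfl
    rw [mem_smap, sv_mulVec]
    exact hU.2 q hq _ hv

theorem Stab.sup {A : AbVar g} {U W : Submodule ℂ (Idx g → ℂ)} (hU : Stab Γ A U) (hW : Stab Γ A W) :
    Stab Γ A (U ⊔ W) := by
  constructor
  · intro α hα v hv
    obtain ⟨u, hu, w, hw, rfl⟩ := Submodule.mem_sup.1 hv
    rw [Matrix.mulVec_add]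
    exact Submodule.add_mem_sup (hU.1 α hα u hu) (hW.1 α hα w hw)
  · intro q hq v hv
    obtain ⟨u, hu, w, hw, rfl⟩ := Submodule.mem_sup.1 hv
    rw [Matrix.mulVec_add]
    exact Submodule.add_mem_sup (hU.2 q hq u hu) (hW.2 q hq w hw)

theorem Stab.inf {A : AbVar g} {U W : Submodule ℂ (Idx g → ℂ)} (hU : Stab Γ A U) (hW : Stab Γ A W) :
    Stab Γ A (U ⊓ W) :=
  ⟨fun α hα v hv => ⟨hU.1 α hα v hv.1, hW.1 α hα v hv.2⟩,
    fun q hq v hv => ⟨hU.2 q hq v hv.1, hW.2 q hq v hv.2⟩⟩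

theorem Stab.iSup {A : AbVar g} {κ : Type} {U : κ → Submodule ℂ (Idx g → ℂ)}
    (hU : ∀ i, Stab Γ A (U i)) : Stab Γ A (⨆ i, U i) := by
  constructor
  · intro α hα
    have : (⨆ i, U i) ≤ (⨆ i, U i).comap (AbVar.toC α).mulVecLin :=
      iSup_le fun i v hv => Submodule.mem_iSup_of_mem i ((hU i).1 α hα v hv)
    exact fun v hv => this hv
  · intro q hq
    have : (⨆ i, U i) ≤ (⨆ i, U i).comap q.1.val.mulVecLin :=
      iSup_le fun i v hv => Submodule.mem_iSup_of_mem i ((hU i).2 q hq v hv)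
    exact fun v hv => this hv

/-- the image of an idempotent -/
def Vp (p : Matrix (Idx g) (Idx g) ℂ) : Submodule ℂ (Idx g → ℂ) where
  carrier := {v | p *ᵥ v = v}
  add_mem' := by
    intro v w hv hw
    show p *ᵥ (v + w) = v + w
    rw [Matrix.mulVec_add, hv, hw]
  zero_mem' := Matrix.mulVec_zero p
  smul_mem' := by
    intro c v hv
    show p *ᵥ (c • v) = c • v
    rw [Matrix.mulVec_smul, hv]

/-! ### the algebra `End(A) ⊗ ℂ` -/

theorem comm_EndC {A : AbVar g} {x y : Matrix (Idx g) (Idx g) ℂ} (hx : A.Comm x)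
    (hy : y ∈ A.EndC) : x * y = y * x := by
  refine Submodule.span_induction (p := fun y _ => x * y = y * x) ?_ ?_ ?_ ?_ hy
  · rintro y ⟨α, hα, rfl⟩
    exact hx α hα
  · rw [mul_zero, zero_mul]
  · intro y z _ _ hy hz
    rw [mul_add, add_mul, hy, hz]
  · intro c y _ hy
    rw [Matrix.mul_smul, Matrix.smul_mul, hy]

theorem EndC_mul {A : AbVar g} {x y : Matrix (Idx g) (Idx g) ℂ} (hx : x ∈ A.EndC)
    (hy : y ∈ A.EndC) : x * y ∈ A.EndC := by
  have h1 : x * y ∈ A.EndC * A.EndC := Submodule.mul_mem_mul hx hy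
  unfold AbVar.EndC at h1 ⊢
  rw [Submodule.span_mul_span] at h1
  refine Submodule.span_mono ?_ h1
  rintro _ ⟨s, ⟨α, hα, rfl⟩, t, ⟨β, hβ, rfl⟩, rfl⟩
  exact ⟨α * β, A.EndQ.mul_mem hα hβ, (AbVar.toC_mul α β).symm⟩

theorem cidem_mul {A : AbVar g} {p q : Matrix (Idx g) (Idx g) ℂ} (hp : A.IsCIdem p)
    (hq : A.IsCIdem q) : A.IsCIdem (p * q) := by
  have e : p * q = q * p := comm_EndC hp.2.2 hq.1
  refine ⟨EndC_mul hp.1 hq.1, ?_, Dec.comm_mul hp.2.2 hq.2.2⟩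
  calc p * q * (p * q) = p * (q * p) * q := by simp only [mul_assoc]
    _ = p * (p * q) * q := by rw [e]
    _ = (p * p) * (q * q) := by simp only [mul_assoc]
    _ = p * q := by rw [hp.2.1, hq.2.1]

/-- different components are orthogonal -/
theorem comp_mul {A : AbVar g} {p q : Matrix (Idx g) (Idx g) ℂ} (hp : A.IsComp p)
    (hq : A.IsComp q) (hpq : q ≠ p) : p * q = 0 := by
  have e : p * q = q * p := comm_EndC hp.1.2.2 hq.1.1
  have h1 := hp.2.2 (p * q) (cidem_mul hp.1 hq.1) (by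
    rw [mul_assoc, ← e, ← mul_assoc, hp.1.2.1])
  have h2 := hq.2.2 (p * q) (cidem_mul hp.1 hq.1) (by rw [mul_assoc, hq.1.2.1])
  rcases h1 with h1 | h1
  · exact h1
  · rcases h2 with h2 | h2
    · exact h2
    · exact absurd (h2.symm.trans h1) hpq

theorem stab_EndC {A : AbVar g} {U : Submodule ℂ (Idx g → ℂ)} (hU : Stab Γ A U)
    {x : Matrix (Idx g) (Idx g) ℂ} (hx : x ∈ A.EndC) {v : Idx g → ℂ} (hv : v ∈ U) :
    x *ᵥ v ∈ U := by
  refine Submodule.span_induction (p := fun y _ => y *ᵥ v ∈ U) ?_ ?_ ?_ ?_ hx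
  · rintro y ⟨α, hα, rfl⟩
    exact hU.1 α hα v hv
  · rw [Matrix.zero_mulVec]; exact U.zero_mem
  · intro y z _ _ hy hz
    rw [Matrix.add_mulVec]; exact U.add_mem hy hz
  · intro c y _ hy
    rw [Matrix.smul_mulVec]; exact U.smul_mem _ hy

/-! ### the Rosati argument -/

/-- the projection on a stable symmetric subobject is central -/
theorem central {A : AbVar g} (hLeg : Stmt_Leg) (hPos : Stmt_Pos2) {D : Submodule ℂ (Idx g → ℂ)}
    (hD : Stab Γ A D) {α : Matrix (Idx g) (Idx g) ℚ} (hαα : α * α = α)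
    (hros : A.IsRosati α α) (hmem : ∀ v, v ∈ D ↔ AbVar.toC α *ᵥ v = v) :
    A.Comm (AbVar.toC α) := by
  obtain ⟨_, _, hunit, hanti⟩ := hLeg g A
  obtain ⟨_, _, hP⟩ := hPos g A
  set a := AbVar.toC α with ha
  have haa : a * a = a := by rw [ha, ← AbVar.toC_mul, hαα]
  have key : ∀ β, A.IsEnd β → a * AbVar.toC β * a = AbVar.toC β * a := by
    intro β hβ
    apply Matrix.ext_of_mulVec_single
    intro j
    rw [mul_assoc, ← Matrix.mulVec_mulVec, ← Matrix.mulVec_mulVec]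
    refine (hmem _).1 (hD.1 β hβ _ ?_)
    rw [hmem, Matrix.mulVec_mulVec, haa]
  intro β hβ
  obtain ⟨β', hβ', hr, _⟩ := hP β hβ
  set b := AbVar.toC β with hb
  set b' := AbVar.toC β' with hb'
  -- transposed Rosati relation
  have hr' : b'ᵀ * A.riem = A.riem * b := by
    have h1 := congrArg Matrix.transpose (show bᵀ * A.riem = A.riem * b' from hr)
    rw [Matrix.transpose_mul, Matrix.transpose_mul, Matrix.transpose_transpose, hanti,
      Matrix.neg_mul, Matrix.mul_neg, neg_inj] at h1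
    exact h1.symm
  have hra : aᵀ * A.riem = A.riem * a := hros
  have h1 := congrArg (fun x => xᵀ * A.riem) (key β' hβ')
  simp only [Matrix.transpose_mul] at h1
  have e1 : aᵀ * (b'ᵀ * aᵀ) * A.riem = A.riem * (a * b * a) := by
    rw [mul_assoc, mul_assoc, hra, ← mul_assoc b'ᵀ, hr', mul_assoc A.riem, ← mul_assoc aᵀ, hra]
    simp only [mul_assoc]
  have e2 : aᵀ * b'ᵀ * A.riem = A.riem * (a * b) := by
    rw [mul_assoc, hr', ← mul_assoc, hra, mul_assoc]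
  have h2 : A.riem * (a * b * a) = A.riem * (a * b) := by
    rw [← e1, ← e2]
    exact h1
  have hu : IsUnit A.riem := (Matrix.isUnit_iff_isUnit_det _).2 hunit
  have h3 : a * b * a = a * b := hu.mul_left_cancel h2
  rw [← h3, key β hβ]

/-- a component is contained in the sum of the conjugates of a stable subspace -/
theorem vp_le {A : AbVar g} (hT1e : GT1E Γ) (hGb4 : GB4 Γ)
    (hDescQ : Stmt_DescQ) (hPos : Stmt_Pos2) (hGal : Stmt_Gal3) (hLeg : Stmt_Leg)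
    {p : Matrix (Idx g) (Idx g) ℂ} (hp : A.IsComp p) {U : Submodule ℂ (Idx g → ℂ)}
    (hUp : U ≤ Vp p) (hU : Stab Γ A U) (hne : U ≠ ⊥) :
    Vp p ≤ ⨆ σ : {σ : ℂ ≃ₐ[ℚ] ℂ // p.map σ = p}, smap σ.1 U := by
  set D : Submodule ℂ (Idx g → ℂ) := ⨆ σ : ℂ ≃ₐ[ℚ] ℂ, smap σ U with hD
  have hDs : Stab Γ A D := Stab.iSup fun σ => hU.smap hGb4 σ
  have hUD : U ≤ D := by
    intro v hv
    refine Submodule.mem_iSup_of_mem AlgEquiv.refl ?_
    rw [mem_smap]
    have : sv (AlgEquiv.refl : ℂ ≃ₐ[ℚ] ℂ).symm v = v := by funext k; rfl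
    rw [this]
    exact hv
  have hrat : RatSpan D := by
    refine hDescQ (Idx g) D ?_
    intro τ
    have h1 : D ≤ smap τ.symm D := by
      refine iSup_le fun σ v hv => ?_
      rw [mem_smap, AlgEquiv.symm_symm]
      refine Submodule.mem_iSup_of_mem (σ.trans τ) ?_
      rw [mem_smap]
      have : sv (σ.trans τ).symm (sv τ v) = sv σ.symm v := by
        funext k
        simp [sv]
      rw [this]
      exact hv
    intro v hv
    have := h1 hv
    rw [mem_smap, AlgEquiv.symm_symm] at this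
    exact this
  have halg : ∀ q ∈ Γ A, D.map q.1.val.mulVecLin ≤ D := by
    intro q hq
    rw [Submodule.map_le_iff_le_comap]
    intro v hv
    exact hDs.2 q hq v hv
  obtain ⟨α, hα, hαα, hros, hmem⟩ := hT1e g A D hrat halg
  have hcomm := central hLeg hPos hDs hαα hros hmem
  have hci : A.IsCIdem (AbVar.toC α) :=
    ⟨Submodule.subset_span ⟨α, hα, rfl⟩, by rw [← AbVar.toC_mul, hαα], hcomm⟩
  have hap : AbVar.toC α * p = p := by
    rcases hp.2.2 (AbVar.toC α * p) (cidem_mul hci hp.1) (by rw [mul_assoc, hp.1.2.1]) with h | h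
    · exfalso
      apply hne
      rw [Submodule.eq_bot_iff]
      intro u hu
      have h1 : p *ᵥ u = u := hUp hu
      have h2 := (hmem u).1 (hUD hu)
      have h3 : (AbVar.toC α * p) *ᵥ u = u := by
        rw [← Matrix.mulVec_mulVec, h1, h2]
      rw [h, Matrix.zero_mulVec] at h3
      exact h3.symm
    · exact h
  intro v hv
  have hv' : p *ᵥ v = v := hv
  have hvD : v ∈ D := by
    rw [hmem]
    conv_lhs => rw [← hv']
    rw [Matrix.mulVec_mulVec, hap, hv']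
  have h5 : D ≤ (⨆ σ : {σ : ℂ ≃ₐ[ℚ] ℂ // p.map σ = p}, smap σ.1 U).comap p.mulVecLin := by
    refine iSup_le fun σ w hw => ?_
    show p *ᵥ w ∈ ⨆ σ : {σ : ℂ ≃ₐ[ℚ] ℂ // p.map σ = p}, smap σ.1 U
    have hw' : p.map σ *ᵥ w = w := by
      have h6 : p *ᵥ (sv σ.symm w) = sv σ.symm w := hUp hw
      have h7 := congrArg (sv σ) h6
      rw [sv_mulVec, sv_symm] at h7
      exact h7
    by_cases hσ : p.map σ = p
    · rw [hσ] at hw'
      rw [hw']
      exact Submodule.mem_iSup_of_mem ⟨σ, hσ⟩ hw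
    · have h8 := comp_mul hp ((hGal g A p hp).1 σ).1 hσ
      rw [← hw', Matrix.mulVec_mulVec, h8, Matrix.zero_mulVec]
      exact Submodule.zero_mem _
  have h9 := h5 hvD
  have h10 : p *ᵥ v ∈ ⨆ σ : {σ : ℂ ≃ₐ[ℚ] ℂ // p.map σ = p}, smap σ.1 U := h9
  rw [hv'] at h10
  exact h10

/-- existence of minimal stable subspaces -/
theorem exists_min {A : AbVar g} {U : Submodule ℂ (Idx g → ℂ)} (hU : Stab Γ A U) (hne : U ≠ ⊥) :
    ∃ U₀ ≤ U, Stab Γ A U₀ ∧ U₀ ≠ ⊥ ∧ ∀ W ≤ U₀, Stab Γ A W → W = ⊥ ∨ W = U₀ := by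
  have hex : ∃ n, ∃ W ≤ U, Stab Γ A W ∧ W ≠ ⊥ ∧ Module.finrank ℂ W = n := ⟨_, U, le_rfl, hU, hne, rfl⟩
  classical
  obtain ⟨W, hWU, hW, hWne, hWn⟩ := Nat.find_spec hex
  refine ⟨W, hWU, hW, hWne, fun W' hW' hs => ?_⟩
  by_cases h : W' = ⊥
  · exact Or.inl h
  · right
    refine Submodule.eq_of_le_of_finrank_le hW' ?_
    rw [hWn]
    exact Nat.find_min' hex ⟨W', hW'.trans hWU, hs, h, rfl⟩

theorem smap_symm' (σ : ℂ ≃ₐ[ℚ] ℂ) (U : Submodule ℂ (Idx g → ℂ)) :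
    smap σ.symm (smap σ U) = U := by
  ext v
  rw [mem_smap, mem_smap, AlgEquiv.symm_symm, sv_symm']

/-- stable complements inside a component -/
theorem exists_compl {A : AbVar g} (hT1e : GT1E Γ) (hGb4 : GB4 Γ)
    (hDescQ : Stmt_DescQ) (hPos : Stmt_Pos2) (hGal : Stmt_Gal3) (hLeg : Stmt_Leg)
    {p : Matrix (Idx g) (Idx g) ℂ} (hp : A.IsComp p) {U : Submodule ℂ (Idx g → ℂ)}
    (hUp : U ≤ Vp p) (hU : Stab Γ A U) (hne : U ≠ ⊥) :
    ∃ W ≤ Vp p, Stab Γ A W ∧ Disjoint U W ∧ Vp p ≤ U ⊔ W := by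
  classical
  obtain ⟨U₀, hU₀U, hU₀, hU₀ne, hmin⟩ := exists_min hU hne
  have hbot : Stab Γ A (⊥ : Submodule ℂ (Idx g → ℂ)) := by
    constructor
    · intro α _ v hv
      rw [(Submodule.mem_bot ℂ).1 hv, Matrix.mulVec_zero]
      exact Submodule.zero_mem _
    · intro q _ v hv
      rw [(Submodule.mem_bot ℂ).1 hv, Matrix.mulVec_zero]
      exact Submodule.zero_mem _
  have hex : ∃ n, ∃ W ≤ Vp p, Stab Γ A W ∧ Disjoint U W ∧
      Module.finrank ℂ (Idx g → ℂ) - Module.finrank ℂ W = n :=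
    ⟨_, ⊥, bot_le, hbot, disjoint_bot_right, rfl⟩
  obtain ⟨W, hWp, hW, hdis, hWn⟩ := Nat.find_spec hex
  refine ⟨W, hWp, hW, hdis, ?_⟩
  refine (vp_le hT1e hGb4 hDescQ hPos hGal hLeg hp (hU₀U.trans hUp) hU₀ hU₀ne).trans ?_
  refine iSup_le fun σ => ?_
  set S := smap σ.1 U₀ with hS
  have hSs : Stab Γ A S := hU₀.smap hGb4 σ.1
  have hSp : S ≤ Vp p := by
    intro v hv
    have h6 : p *ᵥ (sv σ.1.symm v) = sv σ.1.symm v := hUp (hU₀U hv)
    have h7 := congrArg (sv σ.1) h6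
    rw [sv_mulVec, sv_symm, σ.2] at h7
    exact h7
  have hSmin : ∀ W' ≤ S, Stab Γ A W' → W' = ⊥ ∨ W' = S := by
    intro W' hW' hs
    have h1 : smap σ.1.symm W' ≤ U₀ := by
      have := smap_mono σ.1.symm hW'
      rwa [hS, smap_symm'] at this
    rcases hmin _ h1 (hs.smap hGb4 σ.1.symm) with h | h
    · left
      rw [← smap_symm σ.1 W', h, smap_bot]
    · right
      rw [← smap_symm σ.1 W', h]
  rcases hSmin (S ⊓ (U ⊔ W)) inf_le_left (hSs.inf (hU.sup hW)) with h | h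
  · have hd : Disjoint U (W ⊔ S) := by
      refine Disjoint.disjoint_sup_right_of_disjoint_sup_left hdis ?_
      rw [disjoint_iff, inf_comm]
      exact h
    have hle : Module.finrank ℂ (W ⊔ S : Submodule ℂ (Idx g → ℂ)) ≤ Module.finrank ℂ W := by
      by_contra hcon
      push Not at hcon
      have h2 : Module.finrank ℂ (W ⊔ S : Submodule ℂ (Idx g → ℂ)) ≤
          Module.finrank ℂ (Idx g → ℂ) := Submodule.finrank_le _
      have h3 := Nat.find_min' hex ⟨W ⊔ S, sup_le hWp hSp, hW.sup hSs, hd, rfl⟩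
      rw [← hWn] at h3
      omega
    have heq : W = W ⊔ S := Submodule.eq_of_le_of_finrank_le le_sup_left hle
    have : S ≤ W := by rw [heq]; exact le_sup_right
    exact this.trans le_sup_right
  · exact (inf_eq_left.1 h)

end GIrr3X

/-- IRR3 -/
theorem girr3_proof {Γ : GFam} (hT1e : GT1E Γ) (hFin : GFIN Γ) (hGb1 : GB1 Γ)
    (hGb4 : GB4 Γ) (hDescQ : Stmt_DescQ) (hPos : Stmt_Pos2) (hGal : Stmt_Gal3)
    (hLeg : Stmt_Leg) : GIRR3 Γ := by
  intro g A p hp U hUp' hUE hUG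
  have hUp : U ≤ GIrr3X.Vp p := hUp'
  have hU : GIrr3X.Stab Γ A U := ⟨hUE, hUG⟩
  by_cases hne : U = ⊥
  · exact Or.inl hne
  right
  obtain ⟨W, hWp, hW, hdis, hcov⟩ :=
    GIrr3X.exists_compl hT1e hGb4 hDescQ hPos hGal hLeg hp hUp hU hne
  set K : Submodule ℂ (Idx g → ℂ) := W ⊔ LinearMap.ker p.mulVecLin with hK
  have hcompl : IsCompl U K := by
    constructor
    · rw [Submodule.disjoint_def]
      intro v hvU hvK
      obtain ⟨w, hw, k, hk, rfl⟩ := Submodule.mem_sup.1 hvK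
      have h1 : p *ᵥ (w + k) = w + k := hUp hvU
      have h2 : p *ᵥ w = w := hWp hw
      have h3 : p *ᵥ k = 0 := hk
      rw [Matrix.mulVec_add, h2, h3, add_zero] at h1
      rw [← h1] at hvU
      have h4 := (Submodule.disjoint_def.1 hdis) w hvU hw
      rw [← h1, h4]
    · rw [codisjoint_iff, Submodule.eq_top_iff']
      intro v
      have h1 : p *ᵥ v ∈ U ⊔ W := by
        refine hcov ?_
        show p *ᵥ (p *ᵥ v) = p *ᵥ v
        rw [Matrix.mulVec_mulVec, hp.1.2.1]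
      obtain ⟨u, hu, w, hw, e⟩ := Submodule.mem_sup.1 h1
      have h2 : v - p *ᵥ v ∈ LinearMap.ker p.mulVecLin := by
        show p *ᵥ (v - p *ᵥ v) = 0
        rw [Matrix.mulVec_sub, Matrix.mulVec_mulVec, hp.1.2.1, sub_self]
      have h3 : v = u + (w + (v - p *ᵥ v)) := by
        rw [← add_assoc, e, add_sub_cancel]
      rw [h3]
      exact Submodule.add_mem_sup hu (Submodule.add_mem_sup hw h2)
  -- the projection
  set π := U.projection K hcompl with hπ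
  set X : Matrix (Idx g) (Idx g) ℂ := LinearMap.toMatrix' π with hX
  have hXv : ∀ v, X *ᵥ v = π v := by
    intro v
    rw [hX, ← Matrix.toLin'_apply, Matrix.toLin'_toMatrix']
  have hdec : ∀ v, ∃ u ∈ U, ∃ k ∈ K, v = u + k := by
    intro v
    have h1 : v ∈ U ⊔ K := by rw [hcompl.sup_eq_top]; trivial
    obtain ⟨u, hu, k, hk, e⟩ := Submodule.mem_sup.1 h1
    exact ⟨u, hu, k, hk, e.symm⟩
  have hXu : ∀ u ∈ U, X *ᵥ u = u := fun u hu => by
    rw [hXv]; exact Submodule.projection_apply_of_mem_left hcompl hu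
  have hXk : ∀ k ∈ K, X *ᵥ k = 0 := fun k hk => by
    rw [hXv]; exact Submodule.projection_apply_of_mem_right hcompl hk
  have hcommM : ∀ M : Matrix (Idx g) (Idx g) ℂ, (∀ u ∈ U, M *ᵥ u ∈ U) → (∀ k ∈ K, M *ᵥ k ∈ K) →
      X * M = M * X := by
    intro M h1 h2
    apply Matrix.ext_of_mulVec_single
    intro j
    obtain ⟨u, hu, k, hk, e⟩ := hdec (Pi.single j 1)
    rw [e, ← Matrix.mulVec_mulVec, ← Matrix.mulVec_mulVec, Matrix.mulVec_add, Matrix.mulVec_add,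
      Matrix.mulVec_add, hXu _ (h1 u hu), hXk _ (h2 k hk), hXu u hu, hXk k hk, add_zero, add_zero]
  have hKE : ∀ α, A.IsEnd α → ∀ k ∈ K, AbVar.toC α *ᵥ k ∈ K := by
    intro α hα k hk
    obtain ⟨w, hw, l, hl, rfl⟩ := Submodule.mem_sup.1 hk
    rw [Matrix.mulVec_add]
    refine Submodule.add_mem_sup (hW.1 α hα w hw) ?_
    show p *ᵥ (AbVar.toC α *ᵥ l) = 0
    have hl' : p *ᵥ l = 0 := hl
    rw [Matrix.mulVec_mulVec, hp.1.2.2 α hα, ← Matrix.mulVec_mulVec, hl', Matrix.mulVec_zero]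
  have hGc : ∀ q ∈ Γ A, A.Comm q.1.val := fun q hq α hα => (hGb1 g A q hq).1 α hα
  have hKG : ∀ q ∈ Γ A, ∀ k ∈ K, q.1.val *ᵥ k ∈ K := by
    intro q hq k hk
    obtain ⟨w, hw, l, hl, rfl⟩ := Submodule.mem_sup.1 hk
    rw [Matrix.mulVec_add]
    refine Submodule.add_mem_sup (hW.2 q hq w hw) ?_
    show p *ᵥ (q.1.val *ᵥ l) = 0
    have hl' : p *ᵥ l = 0 := hl
    rw [Matrix.mulVec_mulVec, ← GIrr3X.comm_EndC (hGc q hq) hp.1.1, ← Matrix.mulVec_mulVec, hl',
      Matrix.mulVec_zero]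
  have hXE : A.Comm X := fun α hα => hcommM _ (hUE α hα) (hKE α hα)
  have hXG : ∀ q ∈ Γ A, X * q.1.val = q.1.val * X := fun q hq => hcommM _ (hUG q hq) (hKG q hq)
  have hfin : {Y | ∃ q ∈ Γ A, Y = q.1.val * X * (q.1⁻¹).val}.Finite := by
    refine (Set.finite_singleton X).subset ?_
    rintro Y ⟨q, hq, rfl⟩
    show q.1.val * X * (q.1⁻¹).val = X
    rw [← hXG q hq, mul_assoc]
    have : q.1.val * (q.1⁻¹).val = 1 := by
      rw [← Units.val_mul, mul_inv_cancel]; rfl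
    rw [this, mul_one]
  have hXC : X ∈ A.EndC := hFin g A X hfin
  have hXX : X * X = X := by
    apply Matrix.ext_of_mulVec_single
    intro j
    obtain ⟨u, hu, k, hk, e⟩ := hdec (Pi.single j 1)
    rw [e, ← Matrix.mulVec_mulVec, Matrix.mulVec_add, hXu u hu, hXk k hk, add_zero, hXu u hu]
  have hXp : X * p = X := by
    apply Matrix.ext_of_mulVec_single
    intro j
    obtain ⟨u, hu, k, hk, e⟩ := hdec (Pi.single j 1)
    obtain ⟨w, hw, l, hl, rfl⟩ := Submodule.mem_sup.1 hk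
    have h1 : p *ᵥ u = u := hUp hu
    have h2 : p *ᵥ w = w := hWp hw
    have h3 : p *ᵥ l = 0 := hl
    have h4 : X *ᵥ w = 0 := hXk w (Submodule.mem_sup_left hw)
    have h5 : X *ᵥ l = 0 := hXk l (Submodule.mem_sup_right hl)
    rw [e, ← Matrix.mulVec_mulVec]
    simp only [Matrix.mulVec_add, h1, h2, h3, h4, h5, Matrix.mulVec_zero]
  rcases hp.2.2 X ⟨hXC, hXX, hXE⟩ hXp with h | h
  · exfalso
    apply hne
    rw [Submodule.eq_bot_iff]
    intro u hu
    have := hXu u hu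
    rw [h, Matrix.zero_mulVec] at this
    exact this.symm
  · intro v hv
    rw [← hv, ← h, hXv]
    exact Submodule.projection_apply_mem hcompl v

end

end Pool.Agent.SPH
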