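import Pool.Agent.SPH.Stmts
import Pool.Agent.DRB.Irrx

/-!
# De Rham-Betti conjecture: irreducibility of the multiplicity spaces for a family of groups
-/

open scoped BigOperators
open Matrix

namespace Pool.Agent.SPH

open Pool.Agent.DRB

noncomputable section

open IrrxX in
theorem girrx_proof {Γ : GFam} (h1 : GIRR3 Γ) (h2 : GB1 Γ) : GIRRX Γ := by
  intro g A d i L hL
  have hcomm : ∀ q ∈ Γ A, A.Comm q.1.val := fun q hq α hα => (h2 g A q hq).1 α hα
  have hpc : A.IsCIdem (d.p i) := (d.isComp i).1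
  have hpv : ∀ x : Matrix (Idx g) (Idx g) ℂ, x * d.p i = d.p i * x → ∀ w, d.p i *ᵥ w = w →
      d.p i *ᵥ (x *ᵥ w) = x *ᵥ w := by
    intro x hx w hw
    rw [Matrix.mulVec_mulVec, ← hx, ← Matrix.mulVec_mulVec, hw]
  have hA : ∀ α, A.IsEnd α → ∀ v ∈ U d i L, AbVar.toC α *ᵥ v ∈ U d i L := by
    intro α hα w hw
    have hαE : AbVar.toC α ∈ A.EndC := Submodule.subset_span ⟨α, hα, rfl⟩
    obtain ⟨Y, hY⟩ := (d.hE _).1 hαE
    refine ⟨hpv _ (hpc.2.2 α hα).symm w hw.1, fun b' => ?_⟩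
    have e : (fun a => d.B.repr (AbVar.toC α *ᵥ w) ⟨i, (a, b')⟩) =
        ∑ b, Y i b' b • fun a => d.B.repr w ⟨i, (a, b)⟩ := by
      funext a
      rw [repr_right d _ Y hY, Finset.sum_apply]
      rfl
    rw [e]
    exact L.sum_mem fun b _ => L.smul_mem _ (hw.2 b)
  have hG : ∀ q ∈ Γ A, ∀ v ∈ U d i L, q.1.val *ᵥ v ∈ U d i L := by
    intro q hq w hw
    refine ⟨hpv _ (comm_endC (hcomm q hq) hpc.1) w hw.1, fun b => ?_⟩
    have e : (fun a' => d.B.repr (q.1.val *ᵥ w) ⟨i, (a', b)⟩) =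
        d.X q.1.val i *ᵥ fun a => d.B.repr w ⟨i, (a, b)⟩ := by
      funext a'
      rw [repr_left d _ (fun i => d.X q.1.val i) (fun i a b => d.X_spec (hcomm q hq) i a b)]
      rfl
    rw [e]
    exact hL q hq _ (hw.2 b)
  rcases h1 g A (d.p i) (d.isComp i) (U d i L) (fun v hv => hv.1) hA hG with h | h
  · left
    rw [Submodule.eq_bot_iff]
    intro v hv
    have hmem : emb d i v ∈ U d i L := by
      refine ⟨p_emb d i v, fun b => ?_⟩
      rw [repr_emb]
      split_ifs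
      · exact hv
      · exact L.zero_mem
    rw [h, Submodule.mem_bot] at hmem
    have h3 := repr_emb d i v ⟨0, d.npos i⟩
    rw [if_pos rfl, hmem] at h3
    rw [← h3]
    funext a
    rw [map_zero]
    rfl
  · right
    rw [Submodule.eq_top_iff']
    intro v
    have hmem := (h (emb d i v) (p_emb d i v)).2 ⟨0, d.npos i⟩
    rw [repr_emb, if_pos rfl] at hmem
    exact hmem

end

end Pool.Agent.SPH
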