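import Pool.Agent.SPH.Stmts
import Pool.Agent.SPG.MAIN4

/-!
# De Rham-Betti conjecture: the block theorem for a family of groups
-/

open scoped BigOperators Topology
open Matrix

namespace Pool.Agent.SPH

open Pool.Agent.DRB
open Pool.Agent.DRB.MAIN3X hiding Gm3 mem_Gm3 gam_comm lift3 h1_proof3 h2_proof3 h3_proof3 h4_proof3 bhyp3 rel_one
open Pool.Agent.SPG
open Pool.Agent.SPG.MAIN4_ hiding h3_proof4 bhyp4 rel_one4

noncomputable section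

namespace GMain_

variable {g : ℕ} {A : AbVar g} {Γ : GFam} (s : Setup A)

/-- The block group generated by `Γ`. -/
def GmG (Γ : GFam) : Subgroup (BGrp (RR s) (CX s)) := ((Γ A).subgroupOf (CG A)).map (Phi s)

theorem mem_GmG (γ : BGrp (RR s) (CX s)) : γ ∈ GmG s Γ ↔ ∃ q : CG A, q.1 ∈ Γ A ∧ Phi s q = γ := by
  unfold GmG
  rw [Subgroup.mem_map]
  constructor
  · rintro ⟨q, hq, rfl⟩
    exact ⟨q, hq, rfl⟩
  · rintro ⟨q, hq, rfl⟩
    exact ⟨q, hq, rfl⟩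

theorem gam_comm (hGb1 : GB1 Γ) {q : GL (Idx g) ℂ × ℂˣ} (hq : q ∈ Γ A) : A.Comm q.1.val :=
  (hGb1 g A q hq).1

theorem lift3 (hGb1 : GB1 Γ) {q : GL (Idx g) ℂ × ℂˣ} (hq : q ∈ Γ A) :
    ∃ γ ∈ GmG s Γ, γ = Phi s ⟨q, gam_comm hGb1 hq⟩ :=
  ⟨Phi s ⟨q, gam_comm hGb1 hq⟩, (mem_GmG s _).2 ⟨⟨q, gam_comm hGb1 hq⟩, hq, rfl⟩, rfl⟩

theorem h1_proof3 (hGb1 : GB1 Γ) (hIrrX : GIRRX Γ) (r : RR s) (v : Fin 2 → ℂ) (hv : v ≠ 0) :
    ∃ γ ∈ GmG s Γ, ∀ a : ℂ, (γ.1 r).val *ᵥ v ≠ a • v := by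
  by_contra hcon
  push Not at hcon
  obtain ⟨v', hv'⟩ := rv_surj r.2.1 v
  have hv0 : v' ≠ 0 := by
    rintro rfl
    apply hv
    rw [← hv']
    rfl
  have key : ∀ q ∈ Γ A, ∃ a : ℂ, s.d.X q.1.val r.1 *ᵥ v' = a • v' := by
    intro q hq
    obtain ⟨γ, hγ, rfl⟩ := lift3 s hGb1 hq
    obtain ⟨a, ha⟩ := hcon _ hγ
    refine ⟨a, rv_inj r.2.1 ?_⟩
    rw [rv_mulVec, rv_smul, hv']
    exact ha
  rcases hIrrX g A s.d r.1 (Submodule.span ℂ {v'}) (by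
    intro q hq w hw
    obtain ⟨a, ha⟩ := key q hq
    obtain ⟨b, rfl⟩ := Submodule.mem_span_singleton.1 hw
    rw [Matrix.mulVec_smul, ha]
    exact Submodule.smul_mem _ _ (Submodule.smul_mem _ _ (Submodule.mem_span_singleton_self _))) with
    h | h
  · exact hv0 (Submodule.span_singleton_eq_bot.1 h)
  · have h2 := finrank_span_singleton (K := ℂ) hv0
    rw [h, finrank_top, Module.finrank_fin_fun, r.2.1] at h2
    norm_num at h2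

theorem h2_proof3 (hGb1 : GB1 Γ) (hFinX : GFINX Γ) (r : RR s) (X : Matrix (Fin 2) (Fin 2) ℂ)
    (hX : X.trace = 0) (hX0 : X ≠ 0) :
    ¬ {Y | ∃ γ ∈ GmG s Γ, Y = (γ.1 r).val * X * ((γ.1 r)⁻¹).val}.Finite := by
  intro hfin
  obtain ⟨P, hP⟩ := rx_surj r.2.1 r.2.1 X
  have h1 : {Y | ∃ q ∈ Γ A, Y = s.d.X q.1.val r.1 * P * s.d.X (q.1⁻¹).val r.1}.Finite := by
    refine Set.Finite.subset (hfin.preimage
      (f := fun M : Matrix (Fin (s.d.m r.1)) (Fin (s.d.m r.1)) ℂ => rx r.2.1 r.2.1 M)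
      (fun M _ N _ h => rx_inj r.2.1 r.2.1 h)) ?_
    rintro Y ⟨q, hq, rfl⟩
    obtain ⟨γ, hγ, he⟩ := lift3 s hGb1 hq
    refine ⟨γ, hγ, ?_⟩
    rw [he, Phi_fst, Phi_inv, ← hP]
    change rx r.2.1 r.2.1 _ = _
    rw [rx_mul r.2.1 r.2.1 r.2.1, rx_mul r.2.1 r.2.1 r.2.1]
  obtain ⟨c, hc⟩ := (hFinX g A s.d).2 r.1 P h1
  have h4 : X = c • 1 := by
    rw [← hP, hc, rx_smul, rx_one]
  have h5 : c = 0 := by
    rw [h4, Matrix.trace_smul, Matrix.trace_one] at hX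
    simpa using hX
  exact hX0 (by rw [h4, h5, zero_smul])

theorem h4_proof3 (hGb1 : GB1 Γ) (hTors3 : GTORS Γ) (r : RR s) :
    ∃ γ ∈ GmG s Γ, ∀ n : ℕ, 1 ≤ n →
      ¬ ∃ a : ℂ, (γ.1 r).val ^ n = a • (1 : Matrix (Fin 2) (Fin 2) ℂ) := by
  obtain ⟨q, hq, h⟩ := hTors3 g A s.d r.1 r.2.1
  obtain ⟨γ, hγ, he⟩ := lift3 s hGb1 hq
  refine ⟨γ, hγ, fun n hn => ?_⟩
  rintro ⟨a, ha⟩
  refine h n hn ⟨a, rx_inj r.2.1 r.2.1 ?_⟩
  rw [he, Phi_fst, ← rx_pow] at ha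
  rw [rx_smul, rx_one]
  exact ha

theorem h3_proof4 (hGb1 : GB1 Γ) (hLnk : GLNK Γ) (hA : A.Rank2CM) (r r' : RR s) (hr : r ≠ r')
    (P : Matrix (Fin 2) (Fin 2) ℂ) (hP : P ≠ 0) :
    ∃ γ ∈ GmG s Γ, ∀ a : ℂ, (γ.1 r').val * P * ((γ.1 r)⁻¹).val ≠ a • P := by
  obtain ⟨P', hP'⟩ := rx_surj r'.2.1 r.2.1 P
  obtain ⟨q, hq, h⟩ := hLnk g A hA s.d r'.1 r.1 r'.2.1 r.2.1
    (fun h => hr (Subtype.ext h.symm))
    (fun h => by
      rw [← s.hc] at h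
      have h1 := s.d.p_injective h
      have h2 := r.2.2
      have h3 := r'.2.2
      rw [← h1] at h3
      rw [h1, c_c, ← h1] at h2
      exact hr (Subtype.ext (le_antisymm h2 h3)))
    P' (by rintro rfl; exact hP (by rw [← hP']; rfl))
  obtain ⟨γ, hγ, he⟩ := lift3 s hGb1 hq
  refine ⟨γ, hγ, fun a ha => h a (rx_inj r'.2.1 r.2.1 ?_)⟩
  rw [he, Phi_fst, Phi_inv, ← hP', ← rx_smul, ← rx_mul, ← rx_mul] at ha
  exact ha

theorem bhyp4 (hGb1 : GB1 Γ) (hIrrX : GIRRX Γ) (hFinX : GFINX Γ) (hLnk : GLNK Γ)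
    (hTors3 : GTORS Γ) (hA : A.Rank2CM) : BHyp3 (GmG s Γ) where
  h1 := fun r v hv => h1_proof3 s hGb1 hIrrX r v hv
  h2 := fun r X hX hX0 => h2_proof3 s hGb1 hFinX r X hX hX0
  h3 := fun r r' hr P hP => h3_proof4 s hGb1 hLnk hA r r' hr P hP
  h4 := fun r => h4_proof3 s hGb1 hTors3 r

section Rel

variable (a : RR s → ℤ) (n : CX s → ℤ) (m : ℤ)

theorem rel_one4 (hForm : Stmt_Form) (hH54A : GH54A Γ) (hH54B : GH54B Γ) (hGb1 : GB1 Γ)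
    (hA : A.Rank2CM)
    (h : ∀ δ ∈ GmG s Γ, ∃ N : ℕ, 1 ≤ N ∧
      ((∏ r, (δ.1 r).val.det ^ a r) * (∏ i, (δ.2.1 i).val ^ n i) * δ.2.2.val ^ m) ^ N = 1)
    (q : CG A) (hq : IsSim q) (hH : A.HodgeRels q.1.1 q.1.2) :
    (∏ r, (((Phi s q).1 r).val.det) ^ a r) * (∏ i, ((Phi s q).2.1 i).val ^ n i) *
      (Phi s q).2.2.val ^ m = 1 := by
  have hν : q.1.2.val ≠ 0 := q.1.2.ne_zero
  have hreal : ∀ i, s.c i = i → nn s a n i = 0 := by
    intro i hi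
    have n1 : ¬ s.d.m i = 1 := fun h => s.h1 i h hi
    have n2 : ¬ (s.d.m i = 2 ∧ i < s.c i) := fun h => absurd h.2 (by rw [hi]; exact lt_irrefl _)
    unfold nn
    rw [dif_neg n1, dif_neg n2, add_zero]
  have htor : ∀ p ∈ Γ A, ∃ N : ℕ, 1 ≤ N ∧
      ((∏ i, (s.d.X p.1.val i).det ^ nn s a n i) * p.2.val ^ (m + ∑ i, mu s a n i)) ^ N = 1 := by
    intro p hp
    obtain ⟨N, hN, hN'⟩ := h (Phi s ⟨p, gam_comm hGb1 hp⟩)
      ((mem_GmG s _).2 ⟨⟨p, gam_comm hGb1 hp⟩, hp, rfl⟩)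
    refine ⟨N, hN, ?_⟩
    rw [rel_value s a n m hForm ⟨p, gam_comm hGb1 hp⟩ (hGb1 g A p hp).2] at hN'
    exact hN'
  have r1 := hH54A g A hA s.d (nn s a n) (m + ∑ i, mu s a n i)
    (fun i hi => hreal i (s.d.p_injective (by rw [s.hc, hi]))) htor
  rw [rel_value s a n m hForm q hq]
  have r4 : ∀ i, s.d.m i = 2 → nn s a n i = 0 := by
    intro i hi
    rcases le_or_gt (s.c i) i with hlt | hlt
    · unfold nn
      rw [dif_neg (by omega), dif_neg (fun h => absurd h.2 (not_lt.2 hlt)), add_zero]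
    · rw [← r1 i (s.c i) (s.hc i) hi]
      have h2 : s.d.m (s.c i) = 2 := by rw [s.hmc, hi]
      unfold nn
      rw [dif_neg (by omega), dif_neg (fun h => absurd h.2 (by rw [c_c]; exact not_lt.2 hlt.le)),
        add_zero]
  have hsupp : ∀ p ∈ (chr s (nn s a n)).support, A.IsCM p := by
    intro p hp
    obtain ⟨i, rfl, hi⟩ := chr_supp s _ p hp
    have hm : s.d.m i = 1 := by
      rcases s.hm i with h | h
      · exact h
      · exact absurd (r4 i h) hi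
    refine ⟨s.d.isComp i, ?_⟩
    rw [s.d.dim, hm]
    norm_num
  have hodge := hH54B g A hA (chr s (nn s a n)) (m + ∑ i, mu s a n i) hsupp (by
    intro p hp
    obtain ⟨N, hN, hN'⟩ := htor p hp
    refine ⟨N, hN, fun y hy => ?_⟩
    rw [chr_eval s (nn s a n) r4 (gam_comm hGb1 hp) y hy]
    exact hN')
  obtain ⟨y, hy⟩ := exists_y s q.2 (nn s a n) r4
  have hfin := hH (chr s (nn s a n)) (m + ∑ i, mu s a n i) hodge y hy
  rw [chr_eval s (nn s a n) r4 q.2 y hy] at hfin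
  exact hfin

end Rel

end GMain_

open GMain_ in
theorem gmain_proof {Γ : GFam} (hDec : Stmt_Dec) (hGal3 : Stmt_Gal3) (hMix : Stmt_Mix) (hForm : Stmt_Form)
    (hFinX : GFINX Γ) (hIrrX : GIRRX Γ) (hTors3 : GTORS Γ) (hLnk : GLNK Γ)
    (hH54A : GH54A Γ) (hH54B : GH54B Γ) (hTrans : Stmt_Trans)
    (hGt3 : Stmt_Gt3) (hGb1 : GB1 Γ) : GMAIN Γ := by
  intro g A hA t D hD x ν hc hs hH
  obtain ⟨s⟩ := exists_setup4 hDec hGal3 hMix hA
  choose C hC1 hC2 using exists_coef s hForm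
  obtain ⟨t', D', hD'⟩ := hTrans (BIdx (RR s) (CX s)) (Idx g) (tJ s) t (Jmap s C)
    (Jmap_inj s C hC2) D
  have hst : ∀ δ ∈ GmG s Γ, D'.map (TAct t' (bm δ) δ.2.2.val) ≤ D' := by
    intro δ hδ
    obtain ⟨q, hq, rfl⟩ := (mem_GmG s δ).1 hδ
    refine (hD' (bm (Phi s q)) q.1.1.val q.1.2.val q.1.2.ne_zero (fun v => ?_)).2
      (hD q.1 hq)
    exact Jmap_equiv s C q (fun i => hC1 i q (hGb1 g A q.1 hq).2) v _
  let q : CG A := ⟨(x, ν), hc⟩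
  have hq : IsSim q := hs
  have hfin := hGt3 (RR s) (CX s) (GmG s Γ) (bhyp4 s hGb1 hIrrX hFinX hLnk hTors3 hA) t' D' hst
    (Phi s q) (fun a n m h => rel_one4 s a n m hForm hH54A hH54B hGb1 hA h q hq hH)
  have hle : D.map (TAct t x.val ν.val) ≤ D :=
    (hD' (bm (Phi s q)) x.val ν.val ν.ne_zero
      (fun v => Jmap_equiv s C q (fun i => hC1 i q hq) v _)).1 hfin
  have hinj : Function.Injective (TAct t x.val ν.val) := by
    have : (TAct t (x⁻¹).val (ν⁻¹).val).comp (TAct t x.val ν.val) = LinearMap.id := by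
      rw [← TAct_comp, ← Units.val_mul, ← Units.val_mul, inv_mul_cancel, inv_mul_cancel,
        Units.val_one, Units.val_one, TAct_one]
    intro u v huv
    have h3 := congrArg (TAct t (x⁻¹).val (ν⁻¹).val) huv
    have h4 : ∀ w, TAct t (x⁻¹).val (ν⁻¹).val (TAct t x.val ν.val w) = w := by
      intro w
      exact congrArg (fun L : (TIdx t (Idx g) → ℂ) →ₗ[ℂ] (TIdx t (Idx g) → ℂ) => L w) this
    rw [h4, h4] at h3
    exact h3
  refine Submodule.eq_of_le_of_finrank_eq hle ?_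
  exact (LinearEquiv.finrank_eq (Submodule.equivMapOfInjective _ hinj D)).symm

end

end Pool.Agent.SPH
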