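import Pool.Agent.SPH.Stmts
import Pool.Agent.SPG.MU

set_option linter.unusedSectionVars false
set_option linter.unusedSimpArgs false
set_option linter.unusedVariables false

/-!
# Module H54BH: relations between the CM characters of the Mumford-Tate group are Hodge relations
-/

open scoped BigOperators Topology
open Matrix

namespace Pool.Agent.SPH

open Pool.Agent.DRB
open Pool.Agent.DRB.SigX
open Pool.Agent.SPG.MU_ (mu_kk mu_kb mu_comm)

noncomputable section

namespace H54BH_

variable {g : ℕ} {A : AbVar g}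

theorem mu_val (hPHOL : SPG.Stmt_PHOL) {z : ℂˣ} {x : GL (Idx g) ℂ} (h : A.IsMu z x)
    {p : Matrix (Idx g) (Idx g) ℂ} (hcm : A.IsCM p) {y : ℂ} (hy : x.val * p = y • p) [Decidable (A.Hol p)] :
    y = if A.Hol p then z.val else 1 := by
  classical
  have hp0 : p ≠ 0 := hcm.1.2.1
  have hpp : p * p = p := hcm.1.1.2.1
  have hpE : p ∈ A.EndC := hcm.1.1.1
  obtain ⟨j, hj⟩ : ∃ j, p *ᵥ (Pi.single j 1) ≠ 0 := by
    by_contra hcon
    push Not at hcon
    apply hp0
    ext i j
    have := congrFun (hcon j) i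
    rw [Matrix.mulVec_single_one] at this
    exact this
  set w := p *ᵥ (Pi.single j 1 : Idx g → ℂ) with hwdef
  have hpw : p *ᵥ w = w := by
    rw [hwdef, Matrix.mulVec_mulVec, hpp]
  have h3 : x.val *ᵥ w = y • w := by
    conv_lhs => rw [← hpw]
    rw [Matrix.mulVec_mulVec, hy, Matrix.smul_mulVec, hpw]
  obtain ⟨-, -, h5, h4, -⟩ := hPHOL g A p hcm
  obtain ⟨-, -, -, h4c, -⟩ := hPHOL g A (cc p) (hPHOL g A p hcm).2.1
  by_cases hH : A.Hol p
  · rw [if_pos hH]
    have h6 : w ∈ kb A := by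
      rw [mem_kb]
      by_contra hcon
      have h7 : cv w ≠ 0 := by
        intro h0
        apply hj
        rw [← cv_cv w, h0, cv_zero]
      have h8 : cc p *ᵥ cv w = cv w := by
        rw [← cv_mulVec, hpw]
      exact (h5.1 ((h4c (cv w) h7 h8).1 hcon)) hH
    have h9 := mu_kb h h6
    rw [h3] at h9
    have h10 : (y - z.val) • w = 0 := by rw [sub_smul, h9, sub_self]
    exact sub_eq_zero.1 ((smul_eq_zero.1 h10).resolve_right hj)
  · rw [if_neg hH]
    have h6 : w ∈ kk A := by
      rw [mem_kk]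
      by_contra hcon
      exact hH ((h4 w hj hpw).1 hcon)
    have h9 := mu_kk h h6
    rw [h3] at h9
    have h10 : (y - 1) • w = 0 := by rw [sub_smul, h9, one_smul, sub_self]
    exact sub_eq_zero.1 ((smul_eq_zero.1 h10).resolve_right hj)

theorem two_zpow {j : ℤ} (h : (2 : ℂ) ^ j = 1) : j = 0 := by
  have h1 : (2 : ℝ) ^ j = 1 := by
    have h2 := congrArg norm h
    rw [norm_zpow, norm_one] at h2
    simpa using h2
  exact (zpow_right_injective₀ (by norm_num : (0 : ℝ) < 2) (by norm_num : (2 : ℝ) ≠ 1))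
    (by simpa using h1)

end H54BH_

open H54BH_ in
theorem h54bh_proof (h1 : Stmt_HPI) (h2 : SPG.Stmt_PHOL) : Stmt_H54BH := by
  classical
  intro g A hA n m hcm hrel
  refine ⟨hcm, fun σ => ?_⟩
  obtain ⟨π, -, -, -, hmu, hex, hmem⟩ := h1 g A
  obtain ⟨x, hx⟩ := hex (Units.mk0 (2 : ℂ) two_ne_zero)
  have hxv : x.val = 1 + ((2 : ℂ) - 1) • π := (hmu _ _).1 hx
  have hs2 : σ.symm (2 : ℂ) = 2 := by
    have := σ.symm.commutes (2 : ℚ)
    simpa using this
  -- the element of the group
  set q1 : GL (Idx g) ℂ := Units.map ((σ.symm : ℂ →+* ℂ).mapMatrix : Matrix (Idx g) (Idx g) ℂ →+* _).toMonoidHom x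
    with hq1
  have hq1v : q1.val = x.val.map σ.symm := rfl
  have hq : ((q1, Units.mk0 (2 : ℂ) two_ne_zero) : GL (Idx g) ℂ × ℂˣ) ∈ MTg A := by
    refine hmem σ.symm (Units.mk0 (2 : ℂ) two_ne_zero) _ ?_ rfl
    show q1.val = _
    rw [hq1v, hxv]
    ext i j
    simp only [Matrix.map_apply, Matrix.add_apply, Matrix.smul_apply, map_add, smul_eq_mul, map_mul,
      map_sub, map_one, hs2, Units.val_mk0, Matrix.one_apply, apply_ite σ.symm, map_zero]
  obtain ⟨N, hN, hrel2⟩ := hrel _ hq
  set y : Matrix (Idx g) (Idx g) ℂ → ℂ := fun p => if A.Hol (p.map σ) then 2 else 1 with hy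
  have hyq : ∀ p ∈ n.support, q1.val * p = y p • p := by
    intro p hp
    have hcm' : A.IsCM (p.map σ) := (h2 g A p (hcm p hp)).1 σ
    obtain ⟨y0, hy0⟩ := (h2 g A _ hcm').2.2.2.2 x.val (mu_comm hx)
    have hy1 := mu_val h2 hx hcm' hy0
    have hy2 : y0 = y p := by
      rw [hy1, hy]
      rfl
    have hback : (p.map σ).map σ.symm = p := by
      ext i j
      simp
    have h3 : (x.val * p.map σ).map σ.symm = (y0 • p.map σ).map σ.symm := by rw [hy0]
    have h4 : (x.val * p.map σ).map σ.symm = x.val.map σ.symm * (p.map σ).map σ.symm :=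
      Matrix.map_mul (f := (σ.symm : ℂ →+* ℂ))
    have h5 : (y0 • p.map σ).map σ.symm = σ.symm y0 • (p.map σ).map σ.symm := by
      ext i j
      simp [Matrix.map_apply, Matrix.smul_apply]
    have h6 : σ.symm y0 = y0 := by
      rw [hy1]
      split_ifs
      · exact hs2
      · exact map_one _
    rw [h4, h5, hback, h6, ← hq1v] at h3
    rw [h3, hy2]
  have h3 := hrel2 y hyq
  have h7 : (n.prod fun p k => y p ^ k) = (2 : ℂ) ^ (A.hw n σ) := by
    unfold AbVar.hw Finsupp.prod Finsupp.sum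
    have key : ∀ t : Finset (Matrix (Idx g) (Idx g) ℂ),
        ∏ p ∈ t, y p ^ n p = (2 : ℂ) ^ (∑ p ∈ t, if A.Hol (p.map σ) then n p else 0) := by
      intro t
      induction t using Finset.induction_on with
      | empty => simp
      | insert p t hp ih =>
        rw [Finset.prod_insert hp, Finset.sum_insert hp, zpow_add₀ two_ne_zero, ih]
        congr 1
        by_cases hH : A.Hol (p.map σ)
        · rw [hy]
          simp only [if_pos hH]
        · rw [hy]
          simp only [if_neg hH, _root_.one_zpow, _root_.zpow_zero]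
    exact key n.support
  rw [h7] at h3
  have h8 : ((2 : ℂ) ^ (A.hw n σ) * (2 : ℂ) ^ m) ^ N = 1 := h3
  rw [← zpow_add₀ two_ne_zero, ← zpow_natCast, ← _root_.zpow_mul] at h8
  have h9 := two_zpow h8
  rcases mul_eq_zero.1 h9 with h10 | h10
  · exact h10
  · exfalso
    have : N = 0 := by exact_mod_cast h10
    omega

end

end Pool.Agent.SPH
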