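import Pool.Agent.SPH.Stmts
import Pool.Agent.DRB.Sig
import Pool.Agent.DRB.Tors3

/-!
# De Rham-Betti conjecture, SPH / HTORS: an element of the Mumford-Tate group which is not torsion
modulo scalars on a component of rank two
-/

open scoped BigOperators Topology
open Matrix

namespace Pool.Agent.SPH

open Pool.Agent.DRB
open Pool.Agent.DRB.SigX (kk kb mem_kk mem_kb end_kk end_kb)

noncomputable section

namespace HTORS_

variable {g : ℕ} {A : AbVar g}

theorem map_toC (σ : ℂ ≃ₐ[ℚ] ℂ) (α : Matrix (Idx g) (Idx g) ℚ) :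
    (AbVar.toC α).map σ = AbVar.toC α := by
  ext i j
  simp [AbVar.toC]

theorem map_map_symm (σ : ℂ ≃ₐ[ℚ] ℂ) (M : Matrix (Idx g) (Idx g) ℂ) : (M.map σ.symm).map σ = M := by
  ext a b
  simp

/-- The projection onto `H^{-1,0}` commutes with the endomorphisms. -/
theorem pi_comm {π : Matrix (Idx g) (Idx g) ℂ} (hπ : π * π = π) (h0 : ∀ v, v ∈ kk A ↔ π *ᵥ v = 0)
    (h1 : ∀ v, v ∈ kb A ↔ π *ᵥ v = v) : A.Comm π := by
  intro α hα
  have hE : AbVar.toC α ∈ A.EndC := Submodule.subset_span ⟨α, hα, rfl⟩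
  apply Matrix.toLin'.injective
  refine LinearMap.ext fun v => ?_
  rw [Matrix.toLin'_apply, Matrix.toLin'_apply, ← Matrix.mulVec_mulVec, ← Matrix.mulVec_mulVec]
  have hb : π *ᵥ v ∈ kb A := (h1 _).2 (by rw [Matrix.mulVec_mulVec, hπ])
  have ha : v - π *ᵥ v ∈ kk A :=
    (h0 _).2 (by rw [Matrix.mulVec_sub, Matrix.mulVec_mulVec, hπ, sub_self])
  have hb' := (h1 _).1 (end_kb A hE hb)
  have ha' := (h0 _).1 (end_kk A hE ha)
  rw [Matrix.mulVec_sub, Matrix.mulVec_sub, sub_eq_zero] at ha'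
  rw [ha', hb']

theorem comm_map {x : Matrix (Idx g) (Idx g) ℂ} (hx : A.Comm x) (σ : ℂ ≃ₐ[ℚ] ℂ) :
    A.Comm (x.map σ) := by
  intro α hα
  have h := congrArg (fun M : Matrix (Idx g) (Idx g) ℂ => M.map σ) (hx α hα)
  simp only [TORSX.map_mul', map_toC] at h
  exact h

theorem comm_lin {x : Matrix (Idx g) (Idx g) ℂ} (hx : A.Comm x) (c : ℂ) :
    A.Comm (1 + c • x) := by
  intro α hα
  rw [Matrix.add_mul, Matrix.mul_add, Matrix.smul_mul, Matrix.mul_smul, hx α hα, Matrix.one_mul,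
    Matrix.mul_one]

theorem map_lin (c : ℂ) (M : Matrix (Idx g) (Idx g) ℂ) (σ : ℂ ≃ₐ[ℚ] ℂ) :
    (1 + c • M).map σ = 1 + σ c • M.map σ := by
  ext i j
  simp only [Matrix.map_apply, Matrix.add_apply, Matrix.smul_apply, smul_eq_mul, map_mul, map_add,
    Matrix.one_apply]
  split_ifs <;> simp

theorem pow_lin {E : Matrix (Idx g) (Idx g) ℂ} (hE : E * E = E) (n : ℕ) :
    (1 + (1 : ℂ) • E) ^ n = 1 + ((2 : ℂ) ^ n - 1) • E := by
  induction n with
  | zero => simp
  | succ n ih =>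
    rw [pow_succ, ih, one_smul, Matrix.add_mul, Matrix.mul_add, Matrix.mul_add, Matrix.smul_mul,
      Matrix.smul_mul, hE, Matrix.one_mul, Matrix.one_mul, Matrix.mul_one, pow_succ]
    module

end HTORS_

open HTORS_ in
theorem htors_proof (h1 : Stmt_HPI) (h2 : GIRRX @MTg) (_h3 : DRB.Stmt_Gal3) : Stmt_HTORS := by
  intro g A d i hi
  obtain ⟨π, hππ, hk0, hk1, hmu, hex, -⟩ := h1 g A
  have hcπ : A.Comm π := pi_comm hππ hk0 hk1
  -- generators
  have hgen : ∀ (σ : ℂ ≃ₐ[ℚ] ℂ) (z : ℂˣ) (x : GL (Idx g) ℂ), A.IsMu z x →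
      x.val.map σ = 1 + (σ z.val - 1) • π.map σ := by
    intro σ z x hx
    rw [(hmu z x).1 hx, map_lin, map_sub, map_one]
  have hcomm : ∀ q ∈ MTg A, A.Comm q.1.val := by
    intro q hq
    induction hq using Subgroup.closure_induction with
    | mem q hq =>
      obtain ⟨σ, z, x, hx, hq1, -⟩ := hq
      rw [hq1, hgen σ z x hx]
      exact comm_lin (comm_map hcπ σ) _
    | one => exact Dec.comm_one
    | mul p q _ _ hp hq => exact Dec.comm_mul hp hq
    | inv p _ hp => exact Dec.comm_inv hp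
  by_cases hsc : ∀ σ : ℂ ≃ₐ[ℚ] ℂ, ∃ c : ℂ, π.map σ * d.p i = c • d.p i
  · exfalso
    have hall : ∀ q ∈ MTg A, ∃ c : ℂ, q.1.val * d.p i = c • d.p i := by
      intro q hq
      induction hq using Subgroup.closure_induction with
      | mem q hq =>
        obtain ⟨σ, z, x, hx, hq1, -⟩ := hq
        obtain ⟨c, hc⟩ := hsc σ
        refine ⟨1 + (σ z.val - 1) * c, ?_⟩
        rw [hq1, hgen σ z x hx, Matrix.add_mul, Matrix.smul_mul, hc, Matrix.one_mul, smul_smul,
          add_smul, one_smul]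
      | one => exact ⟨1, by simp⟩
      | mul p q _ _ hp hq =>
        obtain ⟨c, hc⟩ := hp
        obtain ⟨e, he⟩ := hq
        refine ⟨e * c, ?_⟩
        have h4 : (p * q).1.val = p.1.val * q.1.val := rfl
        rw [h4, mul_assoc, he, Matrix.mul_smul, hc, smul_smul]
      | inv p _ hp =>
        obtain ⟨c, hc⟩ := hp
        refine ⟨c⁻¹, ?_⟩
        have h2 : (p⁻¹).1.val * p.1.val = 1 := by
          have : (p⁻¹).1.val * p.1.val = ((p⁻¹).1 * p.1).val := rfl
          rw [this, Prod.fst_inv, inv_mul_cancel]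
          rfl
        have h4 : d.p i = c • ((p⁻¹).1.val * d.p i) := by
          rw [← Matrix.mul_smul, ← hc, ← mul_assoc, h2, one_mul]
        have h0 : c ≠ 0 := by
          intro h0
          rw [h0, zero_smul] at h4
          exact (d.isComp i).2.1 h4
        conv_rhs => rw [h4]
        rw [smul_smul, inv_mul_cancel₀ h0, one_smul]
    have hpos : 0 < d.m i := d.mpos i
    set v : Fin (d.m i) → ℂ := Pi.single ⟨0, hpos⟩ 1 with hv
    have hv0 : v ≠ 0 := by
      intro h0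
      have := congrFun h0 ⟨0, hpos⟩
      rw [hv, Pi.single_eq_same, Pi.zero_apply] at this
      exact one_ne_zero this
    have hst := h2 g A d i (Submodule.span ℂ {v}) (fun q hq w hw => by
      obtain ⟨c, hc⟩ := hall q hq
      rw [(TORS3X.scal d (hcomm q hq) i c).2 hc, Matrix.smul_mulVec, Matrix.one_mulVec]
      exact Submodule.smul_mem _ _ hw)
    have hfr : Module.finrank ℂ (Submodule.span ℂ {v}) = 1 := finrank_span_singleton hv0
    rcases hst with h | h
    · rw [h, finrank_bot] at hfr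
      exact zero_ne_one hfr
    · rw [h, finrank_top, Module.finrank_fin_fun, hi] at hfr
      omega
  · push Not at hsc
    obtain ⟨σ, hσ⟩ := hsc
    have h20 : (2 : ℂ) ≠ 0 := two_ne_zero
    obtain ⟨x, hx⟩ := hex (Units.mk0 2 h20)
    set y : GL (Idx g) ℂ := Matrix.GeneralLinearGroup.map (σ : ℂ →+* ℂ) x with hy
    have hyv : y.val = x.val.map σ := by
      rw [hy]
      rfl
    set q : GL (Idx g) ℂ × ℂˣ := (y, Units.map (σ : ℂ →* ℂ) (Units.mk0 2 h20)) with hq
    have hqM : q ∈ MTg A := by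
      refine Subgroup.subset_closure ⟨σ, Units.mk0 2 h20, x, hx, hyv, ?_⟩
      rw [hq]
      rfl
    have hσ2 : σ (2 : ℂ) = 2 := by
      have := map_ofNat σ 2
      exact this
    have hqv : q.1.val = 1 + (1 : ℂ) • π.map σ := by
      have h5 : q.1.val = y.val := rfl
      rw [h5, hyv, hgen σ _ x hx, Units.val_mk0, hσ2]
      norm_num
    refine ⟨q, hqM, fun n hn => ?_⟩
    rintro ⟨c, hc⟩
    have hp1 := TORS3X.X_pow d (hcomm q hqM) i n
    rw [← hp1.2, TORS3X.scal d hp1.1, hqv, pow_lin, Matrix.add_mul, Matrix.one_mul,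
      Matrix.smul_mul] at hc
    · have h2n : ((2 : ℂ) ^ n - 1) ≠ 0 := by
        intro h0
        have h6 : (2 : ℂ) ^ n = 1 := sub_eq_zero.1 h0
        have h7 : (2 : ℕ) ^ n = 1 := by exact_mod_cast h6
        have h8 : 2 ≤ 2 ^ n := by
          calc 2 = 2 ^ 1 := by norm_num
            _ ≤ 2 ^ n := Nat.pow_le_pow_right (by norm_num) hn
        omega
      apply hσ (((2 : ℂ) ^ n - 1)⁻¹ * (c - 1))
      have h9 : ((2 : ℂ) ^ n - 1) • (π.map σ * d.p i) = (c - 1) • d.p i := by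
        rw [sub_smul c, one_smul, ← hc]
        abel
      rw [mul_smul, ← h9, smul_smul, inv_mul_cancel₀ h2n, one_smul]
    · rw [← TORSX.map_mul', hππ]

end

end Pool.Agent.SPH
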