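import Pool.Agent.SPH.Stmts
import Pool.Agent.SPH.HTORS
import Pool.Agent.SPH.H54BH
import Pool.Agent.DRB.H53
import Pool.Agent.SPG.H54A

/-!
# De Rham-Betti conjecture, SPH / H54AH: relations between the determinants on the components of
multiplicity two, for the Mumford-Tate group
-/

open scoped BigOperators Topology
open Matrix

namespace Pool.Agent.SPH

open Pool.Agent.DRB
open Pool.Agent.DRB.SigX (kk kb mem_kk mem_kb end_kk end_kb)

noncomputable section

namespace H54AH_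

open H5X H53X

variable {g : ℕ} {A : AbVar g} (d : Dec A)

theorem commG (h2 : GB1 @MTg) {q : GL (Idx g) ℂ × ℂˣ} (hq : q ∈ MTg A) : A.Comm q.1.val :=
  fun α hα => (h2 g A q hq).1 α hα

theorem dl_neG (h2 : GB1 @MTg) {q : GL (Idx g) ℂ × ℂˣ} (hq : q ∈ MTg A) (i : Fin d.k) :
    dl d q i ≠ 0 := d.X_det_ne (commG h2 hq) i

theorem dl_mulG (h2 : GB1 @MTg) {q q' : GL (Idx g) ℂ × ℂˣ} (hq : q ∈ MTg A) (hq' : q' ∈ MTg A)
    (i : Fin d.k) : dl d (q * q') i = dl d q i * dl d q' i := by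
  unfold dl
  rw [← Matrix.det_mul, ← d.X_mul (commG h2 hq) (commG h2 hq')]
  rfl

theorem ch_addG (h2 : GB1 @MTg) (n n' : Fin d.k → ℤ) (M M' : ℤ) {q : GL (Idx g) ℂ × ℂˣ}
    (hq : q ∈ MTg A) : H53X.ch d (n + n') (M + M') q = H53X.ch d n M q * H53X.ch d n' M' q := by
  unfold H53X.ch
  simp only [Pi.add_apply, zpow_add₀ (dl_neG d h2 hq _), zpow_add₀ q.2.ne_zero,
    Finset.prod_mul_distrib]
  ring

theorem ch_negG (h2 : GB1 @MTg) (n : Fin d.k → ℤ) (M : ℤ) {q : GL (Idx g) ℂ × ℂˣ}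
    (hq : q ∈ MTg A) : H53X.ch d (-n) (-M) q = (H53X.ch d n M q)⁻¹ := by
  apply eq_inv_of_mul_eq_one_left
  rw [← ch_addG d h2 _ _ _ _ hq, neg_add_cancel, neg_add_cancel, H53X.ch_zero]

/-- torsion relations -/
def InG (n : Fin d.k → ℤ) (M : ℤ) : Prop :=
  ∀ q ∈ MTg A, ∃ N : ℕ, 1 ≤ N ∧ H53X.ch d n M q ^ N = 1

theorem inG_zero : InG d 0 0 := fun q _ => ⟨1, le_refl 1, by rw [H53X.ch_zero, one_pow]⟩

theorem inG_add (h2 : GB1 @MTg) {n n' : Fin d.k → ℤ} {M M' : ℤ} (h : InG d n M)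
    (h' : InG d n' M') : InG d (n + n') (M + M') := by
  intro q hq
  obtain ⟨N, hN, h1⟩ := h q hq
  obtain ⟨N', hN', h1'⟩ := h' q hq
  refine ⟨N * N', Nat.mul_pos hN hN', ?_⟩
  rw [ch_addG d h2 _ _ _ _ hq, mul_pow, pow_mul, h1, one_pow, mul_comm N N', pow_mul, h1',
    one_pow, mul_one]

theorem inG_neg (h2 : GB1 @MTg) {n : Fin d.k → ℤ} {M : ℤ} (h : InG d n M) :
    InG d (-n) (-M) := by
  intro q hq
  obtain ⟨N, hN, h1⟩ := h q hq
  exact ⟨N, hN, by rw [ch_negG d h2 _ _ hq, inv_pow, h1, inv_one]⟩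

theorem mapP_memG (h3 : GB4 @MTg) (σ : ℂ ≃ₐ[ℚ] ℂ) {p : GL (Idx g) ℂ × ℂˣ} (hp : p ∈ MTg A) :
    mapP σ p ∈ MTg A := h3 g A σ p hp _ rfl rfl

theorem dl_mapG (h2 : GB1 @MTg) (h3 : GB4 @MTg) (hGal : DRB.Stmt_Gal3) {σ : ℂ ≃ₐ[ℚ] ℂ}
    {s : Fin d.k → Fin d.k} (hs : IsS d σ s) {q : GL (Idx g) ℂ × ℂˣ} (hq : q ∈ MTg A)
    (i : Fin d.k) : dl d (mapP σ q) (s i) ^ L d = σ (dl d q i) ^ L d := by
  have hm : d.m (s i) = d.m i := by
    apply m_eq
    rw [← hs i]
    exact ((hGal g A _ (d.isComp i)).1 σ).2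
  have hn := n_eq d σ (hs i) hm
  have h1 : dl d (mapP σ q) (s i) ^ d.n i = σ (dl d q i) ^ d.n i := by
    rw [← map_pow]
    unfold dl
    rw [← D_eq d (commG h2 hq) i, ← D_map d σ (hs i), ← hn,
      ← D_eq d (commG h2 (mapP_memG h3 σ hq)) (s i)]
    rfl
  obtain ⟨e, he⟩ := L_dvd d i
  rw [he, pow_mul, h1, ← pow_mul]

theorem ch_mapG (h2 : GB1 @MTg) (h3 : GB4 @MTg) (hGal : DRB.Stmt_Gal3) {σ : ℂ ≃ₐ[ℚ] ℂ}
    {s : Fin d.k → Fin d.k} (hs : IsS d σ s) (n : Fin d.k → ℤ) (M : ℤ)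
    {q : GL (Idx g) ℂ × ℂˣ} (hq : q ∈ MTg A) :
    H53X.ch d n M (mapP σ q) ^ L d = σ (H53X.ch d (n ∘ s) M q) ^ L d := by
  unfold H53X.ch
  rw [mul_pow, map_mul, map_zpow₀, mul_pow, map_prod, ← (s_bij d hs).prod_comp, ← Finset.prod_pow,
    ← Finset.prod_pow]
  congr 1
  refine Finset.prod_congr rfl fun i _ => ?_
  rw [map_zpow₀, Function.comp_apply, ← zpow_natCast, ← _root_.zpow_mul, mul_comm,
    _root_.zpow_mul, zpow_natCast, dl_mapG d h2 h3 hGal hs hq, ← zpow_natCast,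
    ← _root_.zpow_mul, mul_comm, _root_.zpow_mul, zpow_natCast]

theorem inG_map (h2 : GB1 @MTg) (h3 : GB4 @MTg) (hGal : DRB.Stmt_Gal3) {σ : ℂ ≃ₐ[ℚ] ℂ}
    {s : Fin d.k → Fin d.k} (hs : IsS d σ s) {n : Fin d.k → ℤ} {M : ℤ} (h : InG d n M) :
    InG d (n ∘ s) M := by
  intro q hq
  obtain ⟨N, hN, h1⟩ := h _ (mapP_memG h3 σ hq)
  refine ⟨L d * N, Nat.mul_pos (L_pos d) hN, ?_⟩
  have h4 : σ (H53X.ch d (n ∘ s) M q ^ (L d * N)) = 1 := by
    rw [map_pow, pow_mul, ← ch_mapG d h2 h3 hGal hs n M hq, ← pow_mul, mul_comm, pow_mul, h1,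
      one_pow]
  exact (map_eq_one_iff σ σ.injective).1 h4

theorem dl_conjG (h2 : GB1 @MTg) (hForm : DRB.Stmt_Form) {q : GL (Idx g) ℂ × ℂˣ}
    (hq : q ∈ MTg A) {i j : Fin d.k} (h : d.p j = cc (d.p i)) :
    dl d q i * dl d q j = q.2.val ^ d.m i := by
  obtain ⟨Ω, Ω', h1, h2', h3⟩ := (hForm g A d).2 i j h
  have h4 := h3 q.1.val q.2.val (commG h2 hq) (h2 g A q hq).2
  have h5 : (d.X q.1.val i)ᵀ * (Ω * d.X q.1.val j * Ω') = q.2.val • 1 := by
    rw [← Matrix.mul_assoc, ← Matrix.mul_assoc, h4, Matrix.smul_mul, h1]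
  have h6 := congrArg Matrix.det h5
  rw [Matrix.det_mul, Matrix.det_transpose, Matrix.det_conj_of_mul_eq_one h1 h2', Matrix.det_smul,
    Matrix.det_one, mul_one, Fintype.card_fin] at h6
  exact h6

theorem X_lin {x : Matrix (Idx g) (Idx g) ℂ} (hx : A.Comm x) (c : ℂ) (i : Fin d.k) :
    d.X (1 + c • x) i = 1 + c • d.X x i := by
  refine d.X_unique (1 + c • x) (fun i => 1 + c • d.X x i) (fun i a b => ?_) i
  rw [Matrix.add_mulVec, Matrix.one_mulVec, Matrix.smul_mulVec, d.X_spec hx, Finset.smul_sum]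
  simp only [Matrix.add_apply, Matrix.smul_apply, add_smul, Finset.sum_add_distrib, smul_smul,
    smul_eq_mul]
  congr 1
  rw [Finset.sum_eq_single a]
  · rw [Matrix.one_apply_eq, one_smul]
  · intro e _ he
    rw [Matrix.one_apply_ne he, zero_smul]
  · intro h
    exact absurd (Finset.mem_univ _) h

theorem det_lin2 {m : ℕ} (hm : m = 2) {P : Matrix (Fin m) (Fin m) ℂ} (hP : P * P = P) :
    (∀ c : ℂ, (1 + c • P).det = 1) ∨ (∀ c : ℂ, (1 + c • P).det = 1 + c) ∨
      ∀ c : ℂ, (1 + c • P).det = (1 + c) ^ 2 := by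
  subst hm
  have e00 := congrFun (congrFun hP 0) 0
  have e01 := congrFun (congrFun hP 0) 1
  have e10 := congrFun (congrFun hP 1) 0
  have e11 := congrFun (congrFun hP 1) 1
  simp only [Matrix.mul_apply, Fin.sum_univ_two] at e00 e01 e10 e11
  have hdet : ∀ c : ℂ, (1 + c • P).det =
      1 + c * (P 0 0 + P 1 1) + c ^ 2 * (P 0 0 * P 1 1 - P 0 1 * P 1 0) := by
    intro c
    rw [Matrix.det_fin_two]
    simp [Matrix.add_apply, Matrix.smul_apply]
    ring
  by_cases hd : P.det = 0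
  · rw [Matrix.det_fin_two] at hd
    by_cases ht : P 0 0 + P 1 1 = 1
    · right
      left
      intro c
      rw [hdet, hd, ht]
      ring
    · left
      have h0 : P 0 0 = 0 := by
        have h1 : P 0 0 * (P 0 0 + P 1 1 - 1) = 0 := by linear_combination e00 + hd
        rcases mul_eq_zero.1 h1 with h | h
        · exact h
        · exact absurd (by linear_combination h) ht
      have h1 : P 1 1 = 0 := by
        have h1 : P 1 1 * (P 0 0 + P 1 1 - 1) = 0 := by linear_combination e11 + hd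
        rcases mul_eq_zero.1 h1 with h | h
        · exact h
        · exact absurd (by linear_combination h) ht
      intro c
      rw [hdet, hd, h0, h1]
      ring
  · right
    right
    have h1 : P = 1 := by
      have hu : IsUnit P.det := isUnit_iff_ne_zero.2 hd
      calc P = P⁻¹ * (P * P) := by rw [← Matrix.mul_assoc, Matrix.nonsing_inv_mul _ hu, Matrix.one_mul]
        _ = 1 := by rw [hP, Matrix.nonsing_inv_mul _ hu]
    intro c
    rw [hdet, h1]
    simp
    ring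

/-- a torsion relation between conjugate determinants determines them -/
theorem dl_nu (hHPI : Stmt_HPI) (h2 : GB1 @MTg) (hForm : DRB.Stmt_Form) {i j : Fin d.k}
    (hij : d.p j = cc (d.p i)) (hmi : d.m i = 2) {c : ℤ} (hc : c ≠ 0)
    (hrel : ∀ q ∈ MTg A, ∃ N : ℕ, 1 ≤ N ∧ ((dl d q i * (dl d q j)⁻¹) ^ c) ^ N = 1) :
    ∀ q ∈ MTg A, dl d q i = q.2.val := by
  obtain ⟨π, hππ, hk0, hk1, hmu, hex, hmem⟩ := hHPI g A
  have hcπ : A.Comm π := HTORS_.pi_comm hππ hk0 hk1
  have key : ∀ (σ : ℂ ≃ₐ[ℚ] ℂ) (c : ℂ), (1 + c • d.X (π.map σ) i).det = 1 + c := by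
    intro σ
    have hcσ := HTORS_.comm_map hcπ σ
    have hPP : d.X (π.map σ) i * d.X (π.map σ) i = d.X (π.map σ) i := by
      rw [← d.X_mul hcσ hcσ, ← TORSX.map_mul', hππ]
    obtain ⟨x, hx⟩ := hex (Units.mk0 2 two_ne_zero)
    have hx1 := (hmu _ x).1 hx
    have hσ2 : σ (2 : ℂ) = 2 := map_ofNat σ 2
    set q : GL (Idx g) ℂ × ℂˣ := (mapGL σ x, Units.mk0 2 two_ne_zero) with hq
    have hq1 : q.1.val = 1 + ((2 : ℂ) - 1) • π.map σ := by
      change (mapGL σ x).val = _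
      rw [mapGL_val, hx1, HTORS_.map_lin, Units.val_mk0, map_sub, hσ2, map_one]
    have hqM : q ∈ MTg A := hmem σ (Units.mk0 2 two_ne_zero) q hq1 rfl
    have hd : dl d q i = (1 + ((2 : ℂ) - 1) • d.X (π.map σ) i).det := by
      unfold dl
      rw [hq1, X_lin d hcσ]
    obtain ⟨N, hN, hr⟩ := hrel q hqM
    have hcj := dl_conjG d h2 hForm hqM hij
    rw [hmi] at hcj
    have hq2 : q.2.val = (2 : ℂ) := rfl
    rw [hq2] at hcj
    have hne := dl_neG d h2 hqM i
    have hne' := dl_neG d h2 hqM j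
    have hcN : c * (N : ℤ) ≠ 0 := mul_ne_zero hc (by omega)
    rcases det_lin2 hmi hPP with h | h | h
    · exfalso
      rw [h] at hd
      rw [hd, one_mul] at hcj
      rw [hd, hcj, one_mul] at hr
      have h5 : (2 : ℂ) ^ (-2 * (c * (N : ℤ))) = 1 := by
        rw [_root_.zpow_mul, _root_.zpow_mul, zpow_natCast]
        rw [show ((2 : ℂ) ^ (-2 : ℤ)) = ((2 : ℂ) ^ 2)⁻¹ from by
          rw [_root_.zpow_neg]; norm_cast]
        exact hr
      have h6 := H54BH_.two_zpow h5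
      exact hcN (by omega)
    · exact h
    · exfalso
      rw [h] at hd
      have hd' : dl d q i = 2 ^ 2 := by
        rw [hd]
        norm_num
      have hj : dl d q j = 1 := by
        have h5 : (2 : ℂ) ^ 2 * dl d q j = 2 ^ 2 * 1 := by rw [← hd', hcj, hd', mul_one]
        exact mul_left_cancel₀ (by norm_num) h5
      rw [hd', hj, inv_one, mul_one] at hr
      have h5 : (2 : ℂ) ^ (2 * (c * (N : ℤ))) = 1 := by
        rw [_root_.zpow_mul, _root_.zpow_mul, zpow_natCast]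
        rw [show ((2 : ℂ) ^ (2 : ℤ)) = (2 : ℂ) ^ 2 from by norm_cast]
        exact hr
      have h6 := H54BH_.two_zpow h5
      exact hcN (by omega)
  intro q hq
  have hq' := hq
  induction hq using Subgroup.closure_induction with
  | mem q hq =>
    obtain ⟨σ, z, x, hx, hq1, hq2⟩ := hq
    unfold dl
    rw [hq1, (hmu z x).1 hx, HTORS_.map_lin, X_lin d (HTORS_.comm_map hcπ σ), key, hq2, map_sub,
      map_one]
    ring
  | one =>
    unfold dl
    change (d.X 1 i).det = 1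
    rw [d.X_one, Matrix.det_one]
  | mul p q hp hq h1 h1' =>
    rw [dl_mulG d h2 hp hq, h1 hp, h1' hq]
    rfl
  | inv p hp h1 =>
    have h4 := dl_mulG d h2 ((MTg A).inv_mem hp) hp i
    rw [inv_mul_cancel] at h4
    have h5 : dl d (1 : GL (Idx g) ℂ × ℂˣ) i = 1 := by
      unfold dl
      change (d.X 1 i).det = 1
      rw [d.X_one, Matrix.det_one]
    rw [h5, h1 hp] at h4
    have h6 : (p⁻¹).2.val = (p.2.val)⁻¹ := by
      rw [Prod.snd_inv, Units.val_inv_eq_inv_val]
    rw [h6]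
    exact eq_inv_of_mul_eq_one_left h4.symm

end H54AH_

open H5X H53X H54AH_ SPG.H54A_ in
theorem h54ah_proof (hHPI : Stmt_HPI) (hGb1 : GB1 @MTg) (hGb4 : GB4 @MTg) (hFinX : GFINX @MTg)
    (hForm : DRB.Stmt_Form) (hGal : DRB.Stmt_Gal3) (hRos : DRB.Stmt_Ros) : Stmt_H54AH := by
  classical
  intro g A hA d n M hn0 hT
  have hT' : InG d n M := hT
  have hcc : ∀ p : Matrix (Idx g) (Idx g) ℂ, cc (cc p) = p := by
    intro p
    ext a b
    simp [cc]
  have hbar0 : ∀ i, ∃ j, cc (d.p i) = d.p j := fun i =>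
    (d.comp _).1 (hGal g A _ (d.isComp i)).2.1
  choose bar hbar using hbar0
  have hS : IsS d cj bar := fun i => hbar i
  have hbb : ∀ i, bar (bar i) = i := by
    intro i
    apply d.p_injective
    rw [← hbar, ← hbar, hcc]
  -- a relation of the special form is impossible
  have hno : ∀ (i : Fin d.k) (c : ℤ), c ≠ 0 → i ≠ bar i → d.m i = 2 →
      (∀ q ∈ MTg A, ∃ N : ℕ, 1 ≤ N ∧ ((dl d q i * (dl d q (bar i))⁻¹) ^ c) ^ N = 1) → False := by
    intro i c hc hij hmi hrel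
    have hnu := dl_nu d hHPI hGb1 hForm (hbar i).symm hmi hc hrel
    obtain ⟨Ω, Ω', hΩ1, hΩ2, hΩ⟩ := (hForm g A d).2 i (bar i) (hbar i).symm
    obtain ⟨J, J', hJ1, hJ2⟩ := existsJ hmi
    have hfin : {Y | ∃ q ∈ MTg A, Y = d.X q.1.val i * (J * Ω) *
          d.X (q.1⁻¹).val (bar i)}.Finite := by
      refine (Set.finite_singleton (J * Ω)).subset ?_
      rintro Y ⟨q, hq, rfl⟩
      rw [Set.mem_singleton_iff]
      have hcm := commG hGb1 hq
      have h3 := hΩ q.1.val q.2.val hcm (hGb1 g A q hq).2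
      have h5 := (d.X_inv hcm (bar i)).1
      have n5 : q.2.val ≠ 0 := q.2.ne_zero
      have h6 : Ω * d.X (q.1⁻¹).val (bar i) = (q.2.val)⁻¹ • ((d.X q.1.val i)ᵀ * Ω) := by
        have h7 : (d.X q.1.val i)ᵀ * Ω = q.2.val • (Ω * d.X (q.1⁻¹).val (bar i)) := by
          rw [← Matrix.smul_mul, ← h3, Matrix.mul_assoc _ _ (d.X (q.1⁻¹).val (bar i)), h5,
            Matrix.mul_one]
        rw [h7, smul_smul, inv_mul_cancel₀ n5, one_smul]
      have h8 : d.X q.1.val i * (J * Ω) * d.X (q.1⁻¹).val (bar i) =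
          d.X q.1.val i * J * (Ω * d.X (q.1⁻¹).val (bar i)) := by
        simp only [Matrix.mul_assoc]
      have h9 : (d.X q.1.val i).det = q.2.val := hnu q hq
      rw [h8, h6, Matrix.mul_smul, ← Matrix.mul_assoc, hJ2, Matrix.smul_mul, smul_smul, h9,
        inv_mul_cancel₀ n5, one_smul]
    have h0 := (hFinX g A d).1 i (bar i) hij _ hfin
    have h1 : Ω = 0 := by
      have h2 : J' * (J * Ω) = 0 := by rw [h0, Matrix.mul_zero]
      rwa [← Matrix.mul_assoc, hJ1, Matrix.one_mul] at h2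
    rw [h1, Matrix.zero_mul] at hΩ1
    have h3 := congrFun (congrFun hΩ1 ⟨0, d.mpos i⟩) ⟨0, d.mpos i⟩
    rw [Matrix.one_apply_eq] at h3
    exact zero_ne_one h3
  -- the group of odd relations
  let R : AddSubgroup (Matrix (Idx g) (Idx g) ℂ → ℤ) :=
    { carrier := {f | (∀ p, ¬ A.IsComp p → f p = 0) ∧ (∀ p, f (cc p) = - f p) ∧
        InG d (fun i => f (d.p i)) 0}
      zero_mem' := ⟨fun _ _ => rfl, fun _ => by simp, inG_zero d⟩
      add_mem' := by
        rintro f f' ⟨h1, h2, h3⟩ ⟨h1', h2', h3'⟩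
        refine ⟨fun p hp => ?_, fun p => ?_, ?_⟩
        · rw [Pi.add_apply, h1 p hp, h1' p hp, add_zero]
        · rw [Pi.add_apply, Pi.add_apply, h2, h2']
          ring
        · have h4 := inG_add d hGb1 h3 h3'
          rw [add_zero] at h4
          exact h4
      neg_mem' := by
        rintro f ⟨h1, h2, h3⟩
        refine ⟨fun p hp => ?_, fun p => ?_, ?_⟩
        · rw [Pi.neg_apply, h1 p hp, neg_zero]
        · rw [Pi.neg_apply, Pi.neg_apply, h2]
        · have h4 := inG_neg d hGb1 h3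
          rw [neg_zero] at h4
          exact h4 }
  have hcompcc : ∀ p, A.IsComp p → A.IsComp (cc p) := fun p hp => (hGal g A p hp).2.1
  -- no relation involves a component of multiplicity two
  have hR4 : ∀ f ∈ R, ∀ p, A.comDim p = 4 → f p = 0 := by
    by_contra hne
    push Not at hne
    obtain ⟨f₀, hf₀, p₀, hp₀, hfp₀⟩ := hne
    obtain ⟨p, hp, hp4, hpc, f, hf, c, hc, hfr⟩ := hA.u R (fun f hf => hf.1)
      (fun f hf => hf.2.1) (by
        intro σ f hf
        obtain ⟨h1, h2, h3⟩ := hf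
        have hσ : ∀ p, ¬ A.IsComp p → ¬ A.IsComp (p.map σ) := by
          intro p hp hp'
          apply hp
          have h4 := ((hGal g A _ hp').1 σ.symm).1
          have h5 : (p.map σ).map σ.symm = p := by
            ext a b
            simp
          rwa [h5] at h4
        refine ⟨fun p hp => h1 _ (hσ p hp), fun p => ?_, ?_⟩
        · change f ((cc p).map σ) = - f (p.map σ)
          by_cases hp : A.IsComp p
          · rw [(hRos g A p hp).2 σ, h2]
          · rw [h1 _ (hσ p hp), h1 _ (hσ _ fun h' => hp (by rw [← hcc p]; exact hcompcc _ h')),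
              neg_zero]
        · obtain ⟨s, hs⟩ := exists_s d hGal σ
          have h4 := inG_map d hGb1 hGb4 hGal hs h3
          have h5 : (fun i => f ((d.p i).map σ)) = (fun i => f (d.p i)) ∘ s := by
            funext i
            rw [Function.comp_apply, hs i]
          rw [h5]
          exact h4) ⟨f₀, hf₀, p₀, hp₀, hfp₀⟩
    obtain ⟨i, rfl⟩ := (d.comp p).1 hp
    have hij : i ≠ bar i := by
      intro h
      apply hpc
      rw [hbar, ← h]
    have hmi : d.m i = 2 := by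
      rw [d.dim] at hp4
      exact Nat.pow_left_injective (n := 2) (by norm_num) (by simpa using hp4)
    refine hno i c hc hij hmi ?_
    intro q hq
    obtain ⟨N, hN, h1⟩ := hf.2.2 q hq
    refine ⟨N, hN, ?_⟩
    rw [← h1]
    congr 1
    unfold H53X.ch
    rw [_root_.zpow_zero, mul_one]
    have h2 : ∀ r l, ind (d.p r) (d.p l) = if r = l then (1 : ℤ) else 0 := by
      intro r l
      unfold ind
      by_cases h : r = l
      · rw [if_pos h, if_pos (by rw [h])]
      · rw [if_neg h, if_neg fun h' => h (d.p_injective h')]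
    simp only [hfr, hbar, h2]
    rw [prod2 _ _ (dl_neG d hGb1 hq)]
  -- symmetry
  have hTb : InG d (n ∘ bar) M := inG_map d hGb1 hGb4 hGal hS hT'
  have hsym : ∀ i, d.m i = 2 → n (bar i) = n i := by
    have h1 := inG_add d hGb1 hT' (inG_neg d hGb1 hTb)
    rw [add_neg_cancel] at h1
    let f : Matrix (Idx g) (Idx g) ℂ → ℤ := fun p =>
      if h : ∃ i, p = d.p i then n h.choose - n (bar h.choose) else 0
    have hf1 : ∀ i, f (d.p i) = n i - n (bar i) := by
      intro i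
      have h : ∃ j, d.p i = d.p j := ⟨i, rfl⟩
      have h2 : h.choose = i := d.p_injective h.choose_spec.symm
      simp only [f]
      rw [dif_pos h, h2]
    have hf2 : ∀ p, ¬ A.IsComp p → f p = 0 := by
      intro p hp
      simp only [f]
      rw [dif_neg]
      intro h
      exact hp ((d.comp p).2 h)
    have hmem : f ∈ R := by
      refine ⟨hf2, fun p => ?_, ?_⟩
      · by_cases hp : A.IsComp p
        · obtain ⟨i, rfl⟩ := (d.comp p).1 hp
          rw [hbar, hf1, hf1, hbb]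
          ring
        · rw [hf2 p hp, hf2 _ fun h' => hp (by rw [← hcc p]; exact hcompcc _ h'), neg_zero]
      · have h5 : (fun i => f (d.p i)) = n + -(n ∘ bar) := by
          funext i
          rw [hf1]
          simp [sub_eq_add_neg]
        rw [h5]
        exact h1
    intro i hmi
    have h6 := hf1 i
    have h7 : f (d.p i) = 0 := hR4 f hmem (d.p i) (by rw [d.dim, hmi]; norm_num)
    omega
  intro i j hij hmi
  have h1 : j = bar i := by
    apply d.p_injective
    rw [hij, hbar]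
  rw [h1, hsym i hmi]

end

end Pool.Agent.SPH
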