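import Pool.Agent.SPH.Stmts

/-!
# SPH / HFIN: elements with a finite orbit under the Mumford-Tate group
-/

set_option linter.unusedSectionVars false
set_option linter.unusedSimpArgs false
set_option linter.unusedVariables false

open scoped BigOperators Topology
open Matrix

namespace Pool.Agent.SPH

open Pool.Agent.DRB
open Pool.Agent.DRB.SigX (kk kb mem_kk mem_kb zL zL_apply)

noncomputable section

namespace HFIN_

variable {n : Type} [Fintype n] [DecidableEq n]

theorem mul_inv_proj (P : Matrix n n ℂ) (hP : P * P = P) (z w : ℂ) (h : z * w = 1) :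
    (1 + (z - 1) • P) * (1 + (w - 1) • P) = 1 := by
  have h1 : (1 + (z - 1) • P) * (1 + (w - 1) • P) =
      1 + ((z - 1) + (w - 1) + (z - 1) * (w - 1)) • P := by
    rw [add_mul, mul_add, mul_add, one_mul, mul_one, one_mul, smul_mul_smul_comm, hP, add_smul,
      add_smul]
    abel
  have h2 : (z - 1) + (w - 1) + (z - 1) * (w - 1) = 0 := by
    have : (z - 1) + (w - 1) + (z - 1) * (w - 1) = z * w - 1 := by ring
    rw [this, h, sub_self]
  rw [h1, h2, zero_smul, add_zero]

/-- the element `1 + (z - 1) P` -/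
def gz (P : Matrix n n ℂ) (hP : P * P = P) (z : ℂˣ) : GL n ℂ where
  val := 1 + (z.val - 1) • P
  inv := 1 + ((z⁻¹).val - 1) • P
  val_inv := mul_inv_proj P hP _ _ z.mul_inv
  inv_val := mul_inv_proj P hP _ _ z.inv_mul

theorem gz_val (P : Matrix n n ℂ) (hP : P * P = P) (z : ℂˣ) :
    (gz P hP z).val = 1 + (z.val - 1) • P := rfl

theorem gz_inv (P : Matrix n n ℂ) (hP : P * P = P) (z : ℂˣ) :
    ((gz P hP z)⁻¹).val = 1 + ((z⁻¹).val - 1) • P := rfl

/-- finitely many multiples -/
theorem zero_of_finite (W : Matrix n n ℂ) (S : Set (Matrix n n ℂ)) (hS : S.Finite)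
    (h : ∀ z : ℂˣ, z.val • W ∈ S) : W = 0 := by
  by_contra hW
  have hinj : Function.Injective (fun z : ℂˣ => z.val • W) := by
    intro z w hzw
    have h1 : (z.val - w.val) • W = 0 := by
      rw [sub_smul, sub_eq_zero]
      exact hzw
    rcases smul_eq_zero.1 h1 with h2 | h2
    · exact Units.ext (sub_eq_zero.1 h2)
    · exact absurd h2 hW
  have hinf : Infinite ℂˣ := by
    have : Function.Injective (fun k : ℕ => Units.mk0 ((k : ℂ) + 1) (Nat.cast_add_one_ne_zero k)) := by
      intro a b hab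
      have h1 := congrArg Units.val hab
      simp only [Units.val_mk0, add_left_inj, Nat.cast_inj] at h1
      exact h1
    exact Infinite.of_injective _ this
  have h2 := Set.infinite_range_of_injective hinj
  exact h2 (hS.subset (by rintro _ ⟨z, rfl⟩; exact h z))

theorem comm_of_finite (P X : Matrix n n ℂ) (hP : P * P = P)
    (h : {Y | ∃ z : ℂˣ, Y = (gz P hP z).val * X * ((gz P hP z)⁻¹).val}.Finite) :
    X * P = P * X := by
  have e1 : ∀ z : ℂˣ, P * (gz P hP z).val = z.val • P := by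
    intro z
    rw [gz_val, mul_add, mul_one, mul_smul_comm, hP]
    module
  have e2 : ∀ z : ℂˣ, (gz P hP z).val * P = z.val • P := by
    intro z
    rw [gz_val, add_mul, one_mul, smul_mul_assoc, hP]
    module
  have e3 : ∀ z : ℂˣ, ((gz P hP z)⁻¹).val * P = (z⁻¹).val • P := by
    intro z
    rw [gz_inv, add_mul, one_mul, smul_mul_assoc, hP]
    module
  have e4 : ∀ z : ℂˣ, ((gz P hP z)⁻¹).val * (1 - P) = 1 - P := by
    intro z
    rw [mul_sub, mul_one, e3, gz_inv]
    module
  have e5 : ∀ z : ℂˣ, (1 - P) * (gz P hP z).val = 1 - P := by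
    intro z
    rw [sub_mul, one_mul, e1, gz_val]
    module
  have w1 : P * X * (1 - P) = 0 := by
    refine zero_of_finite _ _ (h.image fun Y => P * Y * (1 - P)) fun z => ?_
    refine ⟨_, ⟨z, rfl⟩, ?_⟩
    show P * ((gz P hP z).val * X * ((gz P hP z)⁻¹).val) * (1 - P) = z.val • (P * X * (1 - P))
    calc P * ((gz P hP z).val * X * ((gz P hP z)⁻¹).val) * (1 - P)
        = (P * (gz P hP z).val) * X * (((gz P hP z)⁻¹).val * (1 - P)) := by
          simp only [Matrix.mul_assoc]
      _ = z.val • (P * X * (1 - P)) := by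
          rw [e1, e4, smul_mul_assoc, smul_mul_assoc]
  have w2 : (1 - P) * X * P = 0 := by
    refine zero_of_finite _ _ (h.image fun Y => (1 - P) * Y * P) fun z => ?_
    refine ⟨_, ⟨z⁻¹, rfl⟩, ?_⟩
    show (1 - P) * ((gz P hP z⁻¹).val * X * ((gz P hP z⁻¹)⁻¹).val) * P = z.val • ((1 - P) * X * P)
    calc (1 - P) * ((gz P hP z⁻¹).val * X * ((gz P hP z⁻¹)⁻¹).val) * P
        = ((1 - P) * (gz P hP z⁻¹).val) * X * (((gz P hP z⁻¹)⁻¹).val * P) := by
          simp only [Matrix.mul_assoc]
      _ = z.val • ((1 - P) * X * P) := by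
          rw [e5, e3, inv_inv, mul_smul_comm]
  have w1' : P * X = P * X * P := by
    have : P * X * (1 - P) = P * X - P * X * P := by rw [mul_sub, mul_one]
    rw [this] at w1
    exact sub_eq_zero.1 w1
  have w2' : X * P = P * X * P := by
    have : (1 - P) * X * P = X * P - P * X * P := by rw [sub_mul, one_mul, sub_mul]
    rw [this] at w2
    exact sub_eq_zero.1 w2
  rw [w2', ← w1']

theorem map_idem (P : Matrix n n ℂ) (hP : P * P = P) (σ : ℂ ≃ₐ[ℚ] ℂ) :
    P.map σ * P.map σ = P.map σ := by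
  have h1 : (P * P).map σ = P.map σ * P.map σ := Matrix.map_mul (f := (σ : ℂ →+* ℂ))
  rw [← h1, hP]

/-- the commutant of all conjugates -/
def SS (P : Matrix n n ℂ) : Submodule ℂ (n × n → ℂ) where
  carrier := {v | ∀ σ : ℂ ≃ₐ[ℚ] ℂ, (Matrix.of fun i j => v (i, j)) * P.map σ =
    P.map σ * (Matrix.of fun i j => v (i, j))}
  add_mem' := by
    intro v w hv hw σ
    have h1 : (Matrix.of fun i j => (v + w) (i, j)) =
        (Matrix.of fun i j => v (i, j)) + (Matrix.of fun i j => w (i, j)) := rfl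
    rw [h1, add_mul, mul_add, hv σ, hw σ]
  zero_mem' := by
    intro σ
    have h1 : (Matrix.of fun i j => (0 : n × n → ℂ) (i, j)) = (0 : Matrix n n ℂ) := rfl
    rw [h1, zero_mul, mul_zero]
  smul_mem' := by
    intro c v hv σ
    have h1 : (Matrix.of fun i j => (c • v) (i, j)) =
        c • (Matrix.of fun i j => v (i, j)) := rfl
    rw [h1, smul_mul_assoc, mul_smul_comm, hv σ]

theorem ratSpan_SS (h3 : DRB.Stmt_DescQ) (P : Matrix n n ℂ) : RatSpan (SS P) := by
  refine h3 (n × n) (SS P) ?_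
  intro τ v hv σ
  have h1 := hv (σ.trans τ.symm)
  have h2 : (Matrix.of fun i j => τ (v (i, j))) = (Matrix.of fun i j => v (i, j)).map τ := rfl
  have h4 : (P.map (σ.trans τ.symm)).map τ = P.map σ := by
    ext i j
    simp
  have h5 : ((Matrix.of fun i j => v (i, j)) * P.map (σ.trans τ.symm)).map τ =
      (P.map (σ.trans τ.symm) * (Matrix.of fun i j => v (i, j))).map τ := by rw [h1]
  have h6 : ∀ M N : Matrix n n ℂ, (M * N).map τ = M.map τ * N.map τ := fun M N =>
    Matrix.map_mul (f := (τ : ℂ →+* ℂ))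
  rw [h6, h6, h4] at h5
  show (Matrix.of fun i j => τ (v (i, j))) * P.map σ = P.map σ * (Matrix.of fun i j => τ (v (i, j)))
  rw [h2]
  exact h5

end HFIN_

open HFIN_ in
theorem hfin_proof (h1 : Stmt_HPI) (h2 : SPF.Stmt_HM2) (h3 : DRB.Stmt_DescQ) : Stmt_HFIN := by
  intro g A X hfin
  obtain ⟨π, hπ, hkk, hkb, hmu, hex, hmem⟩ := h1 g A
  -- commutation with all conjugates of `π`
  have hcomm : ∀ σ : ℂ ≃ₐ[ℚ] ℂ, X * π.map σ = π.map σ * X := by
    intro σ
    refine comm_of_finite (π.map σ) X (map_idem π hπ σ) (hfin.subset ?_)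
    rintro _ ⟨z, rfl⟩
    refine ⟨(gz (π.map σ) (map_idem π hπ σ) z, z), ?_, rfl⟩
    exact hmem σ z _ rfl rfl
  have hX : (fun p : Idx g × Idx g => X p.1 p.2) ∈ SS π := by
    intro σ
    exact hcomm σ
  have hXs := ratSpan_SS h3 π hX
  -- rational elements of the commutant are endomorphisms
  have hrat : ∀ v : Idx g × Idx g → ℂ, v ∈ SS π → (∀ k, ∃ q : ℚ, v k = q) →
      ∃ α ∈ A.EndQ, (Matrix.of fun i j => v (i, j)) = AbVar.toC α := by
    intro v hv hq
    choose q hq using hq
    refine ⟨Matrix.of fun i j => q (i, j), ?_, ?_⟩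
    swap
    · ext i j
      simp only [AbVar.toC, Matrix.map_apply, Matrix.of_apply, hq]
      rfl
    have hα : AbVar.toC (Matrix.of fun i j => q (i, j)) = (Matrix.of fun i j => v (i, j)) := by
      ext i j
      simp only [AbVar.toC, Matrix.map_apply, Matrix.of_apply, hq]
      rfl
    set α : Matrix (Idx g) (Idx g) ℚ := Matrix.of fun i j => q (i, j) with hαdef
    have hc := hv (AlgEquiv.refl)
    have hπ1 : π.map (AlgEquiv.refl : ℂ ≃ₐ[ℚ] ℂ) = π := by
      ext i j
      rfl
    rw [hπ1, ← hα] at hc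
    -- `α` preserves the kernel
    have hker : ∀ u, u ∈ kk A → AbVar.toC α *ᵥ u ∈ kk A := by
      intro u hu
      rw [hkk] at hu ⊢
      rw [Matrix.mulVec_mulVec, ← hc, ← Matrix.mulVec_mulVec, hu, Matrix.mulVec_zero]
    have hu : IsUnit A.per.det := A.nondeg
    have hper1 : A.per * A.per⁻¹ = 1 := Matrix.mul_nonsing_inv _ hu
    have hper2 : A.per⁻¹ * A.per = 1 := Matrix.nonsing_inv_mul _ hu
    set N := A.per * AbVar.toC α * A.per⁻¹ with hN
    have hNper : N * A.per = A.per * AbVar.toC α := by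
      rw [hN, Matrix.mul_assoc, hper2, Matrix.mul_one]
    have hN0 : ∀ i j, N (Sum.inl i) (Sum.inr j) = 0 := by
      intro i j
      have h4 : A.per⁻¹ *ᵥ (Pi.single (Sum.inr j) 1) ∈ kk A := by
        rw [mem_kk, zL_apply, Matrix.mulVec_mulVec, hper1, Matrix.one_mulVec]
        funext k
        show (Pi.single (Sum.inr j) (1 : ℂ) : Idx g → ℂ) (Sum.inl k) = 0
        rw [Pi.single_eq_of_ne]
        simp
      have h5 := hker _ h4
      rw [mem_kk, zL_apply, Matrix.mulVec_mulVec, Matrix.mulVec_mulVec, ← hN] at h5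
      have h6 : (N *ᵥ (Pi.single (Sum.inr j) 1)) (Sum.inl i) = 0 := congrFun h5 i
      rw [Matrix.mulVec_single_one] at h6
      exact h6
    obtain ⟨ρ, hρ1, hρ2, hρ3⟩ := h2 g g A A (Matrix.of fun i j => N (Sum.inl i) (Sum.inl j)) α (by
      intro j
      funext i
      have h7 : (N * A.per) (Sum.inl i) j = (A.per * AbVar.toC α) (Sum.inl i) j := by rw [hNper]
      rw [Matrix.mul_apply, Matrix.mul_apply, Fintype.sum_sum_type] at h7
      have h8 : ∑ x : Fin g, N (Sum.inl i) (Sum.inr x) * A.per (Sum.inr x) j = 0 :=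
        Finset.sum_eq_zero fun x _ => by rw [hN0, zero_mul]
      rw [h8, add_zero] at h7
      have h9 : ((Matrix.of fun i j => N (Sum.inl i) (Sum.inl j)).mulVec (A.lat j)) i =
          ∑ x : Fin g, N (Sum.inl i) (Sum.inl x) * A.per (Sum.inl x) j := rfl
      rw [h9, h7, Finset.sum_apply]
      refine Finset.sum_congr rfl fun k _ => ?_
      show A.lat k i * AbVar.toC α k j = ((α k j : ℚ) : ℂ) * A.lat k i
      rw [mul_comm]
      rfl)
    exact ⟨ρ, hρ1, hρ2, hρ3⟩
  -- conclusion
  have hfinal : ∀ v : Idx g × Idx g → ℂ,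
      v ∈ Submodule.span ℂ {v | v ∈ SS π ∧ ∀ k, ∃ q : ℚ, v k = q} →
      (Matrix.of fun i j => v (i, j)) ∈
        Submodule.span ℂ {Y | ∃ α ∈ A.EndQ, Y = AbVar.toC α} := by
    intro v hv
    induction hv using Submodule.span_induction with
    | mem v hv =>
      obtain ⟨α, hα, hv'⟩ := hrat v hv.1 hv.2
      rw [hv']
      exact Submodule.subset_span ⟨α, hα, rfl⟩
    | zero =>
      have h4 : (Matrix.of fun i j => (0 : Idx g × Idx g → ℂ) (i, j)) =
        (0 : Matrix (Idx g) (Idx g) ℂ) := rfl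
      rw [h4]
      exact Submodule.zero_mem _
    | add v w _ _ hv hw =>
      have h4 : (Matrix.of fun i j => (v + w) (i, j)) =
        (Matrix.of fun i j => v (i, j)) + (Matrix.of fun i j => w (i, j)) := rfl
      rw [h4]
      exact Submodule.add_mem _ hv hw
    | smul c v _ hv =>
      have h4 : (Matrix.of fun i j => (c • v) (i, j)) =
        c • (Matrix.of fun i j => v (i, j)) := rfl
      rw [h4]
      exact Submodule.smul_mem _ _ hv
  exact hfinal _ hXs

end

end Pool.Agent.SPH
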