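import Pool.Agent.SPH.Stmts
import Pool.Agent.DRB.Lnk

/-!
# Module HLNK: different components of rank two are not isomorphic up to a character of the
Mumford-Tate group
-/

open scoped BigOperators Topology
open Matrix

namespace Pool.Agent.SPH

open Pool.Agent.DRB
open Pool.Agent.DRB.SigX (kk kb mem_kk mem_kb)

noncomputable section

namespace HLNK_

variable {g : ℕ} {A : AbVar g}

theorem map_mul' (σ : ℂ ≃ₐ[ℚ] ℂ) (x y : Matrix (Idx g) (Idx g) ℂ) :
    (x * y).map σ = x.map σ * y.map σ := Matrix.map_mul (f := (σ : ℂ →+* ℂ))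

theorem map_one' (σ : ℂ ≃ₐ[ℚ] ℂ) : (1 : Matrix (Idx g) (Idx g) ℂ).map σ = 1 := by
  rw [Matrix.map_one _ (map_zero _) (map_one _)]

theorem map_add' (σ : ℂ ≃ₐ[ℚ] ℂ) (x y : Matrix (Idx g) (Idx g) ℂ) :
    (x + y).map σ = x.map σ + y.map σ := by
  ext r s
  simp [Matrix.map_apply, Matrix.add_apply]

theorem map_smul' (σ : ℂ ≃ₐ[ℚ] ℂ) (c : ℂ) (x : Matrix (Idx g) (Idx g) ℂ) :
    (c • x).map σ = σ c • x.map σ := by
  ext r s
  simp [Matrix.map_apply, Matrix.smul_apply]

theorem map_symm (σ : ℂ ≃ₐ[ℚ] ℂ) (x : Matrix (Idx g) (Idx g) ℂ) :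
    (x.map σ.symm).map σ = x := by
  ext r s
  simp [Matrix.map_apply]

theorem map_symm' (σ : ℂ ≃ₐ[ℚ] ℂ) (x : Matrix (Idx g) (Idx g) ℂ) :
    (x.map σ).map σ.symm = x := by
  ext r s
  simp [Matrix.map_apply]

theorem ext_mulVec {x y : Matrix (Idx g) (Idx g) ℂ} (h : ∀ v, x *ᵥ v = y *ᵥ v) : x = y := by
  have h2 : Matrix.toLin' x = Matrix.toLin' y := by
    refine LinearMap.ext fun v => ?_
    rw [Matrix.toLin'_apply, Matrix.toLin'_apply]
    exact h v
  exact Matrix.toLin'.injective h2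

theorem kk_iff (v : Idx g → ℂ) : v ∈ kk A ↔ ∀ k : Fin g, (A.per.mulVec v) (Sum.inl k) = 0 := by
  rw [mem_kk]
  constructor
  · intro h k
    exact congrFun h k
  · intro h
    funext k
    exact h k

theorem kb_iff (v : Idx g → ℂ) : v ∈ kb A ↔
    ∀ k : Fin g, (A.per.mulVec fun i => (starRingEnd ℂ) (v i)) (Sum.inl k) = 0 := by
  rw [mem_kb]
  constructor
  · intro h k
    exact congrFun h k
  · intro h
    funext k
    exact h k

/-- `μ(2)` acts by a scalar on a component which is not mixed -/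
theorem scalar_of_not_mixed {π : Matrix (Idx g) (Idx g) ℂ} (hk : ∀ v, v ∈ kk A ↔ π *ᵥ v = 0)
    (hb : ∀ v, v ∈ kb A ↔ π *ᵥ v = v) {p : Matrix (Idx g) (Idx g) ℂ} (hp : A.IsComp p)
    (hm : ¬ A.Mixed p) : ∃ c : ℂ, (1 + π) * p = c • p := by
  have hE : p ∈ A.EndC := hp.1.1
  have hpp : ∀ v : Idx g → ℂ, p *ᵥ (p *ᵥ v) = p *ᵥ v := by
    intro v
    rw [Matrix.mulVec_mulVec, hp.1.2.1]
  unfold AbVar.Mixed at hm
  rw [not_and_or] at hm
  rcases hm with hm | hm
  · refine ⟨2, ext_mulVec fun v => ?_⟩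
    obtain ⟨a, ha, b, hb', hab⟩ := SigX.split A v
    have h0 : p *ᵥ a = 0 := by
      by_contra hne
      exact hm ⟨p *ᵥ a, hne, hpp a, (kk_iff _).1 (SigX.end_kk A hE ha)⟩
    have h1 : p *ᵥ v = p *ᵥ b := by rw [hab, Matrix.mulVec_add, h0, zero_add]
    have h2 : π *ᵥ (p *ᵥ v) = p *ᵥ v := by
      rw [h1]
      exact (hb _).1 (SigX.end_kb A hE hb')
    rw [← Matrix.mulVec_mulVec, Matrix.add_mulVec, Matrix.one_mulVec, h2, Matrix.smul_mulVec,
      two_smul]
  · refine ⟨1, ext_mulVec fun v => ?_⟩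
    obtain ⟨a, ha, b, hb', hab⟩ := SigX.split A v
    have h0 : p *ᵥ b = 0 := by
      by_contra hne
      exact hm ⟨p *ᵥ b, hne, hpp b, (kb_iff _).1 (SigX.end_kb A hE hb')⟩
    have h1 : p *ᵥ v = p *ᵥ a := by rw [hab, Matrix.mulVec_add, h0, add_zero]
    have h2 : π *ᵥ (p *ᵥ v) = 0 := by
      rw [h1]
      exact (hk _).1 (SigX.end_kk A hE ha)
    rw [← Matrix.mulVec_mulVec, Matrix.add_mulVec, Matrix.one_mulVec, h2, Matrix.smul_mulVec,
      one_smul, add_zero]

/-- `μ(2)` does not act by a scalar on a mixed component -/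
theorem not_mixed_of_scalar {π : Matrix (Idx g) (Idx g) ℂ} (hk : ∀ v, v ∈ kk A ↔ π *ᵥ v = 0)
    (hb : ∀ v, v ∈ kb A ↔ π *ᵥ v = v) {p : Matrix (Idx g) (Idx g) ℂ} {c : ℂ}
    (hc : (1 + π) * p = c • p) : ¬ A.Mixed p := by
  rintro ⟨⟨v, hv0, hv, hvk⟩, ⟨w, hw0, hw, hwk⟩⟩
  have hv1 : π *ᵥ v = 0 := (hk v).1 ((kk_iff v).2 hvk)
  have hw1 : π *ᵥ w = w := (hb w).1 ((kb_iff w).2 hwk)
  have e1 : v = c • v := by
    have h := congrArg (fun Z : Matrix (Idx g) (Idx g) ℂ => Z *ᵥ v) hc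
    simp only [← Matrix.mulVec_mulVec, Matrix.smul_mulVec] at h
    have hv' : p *ᵥ v = v := hv
    rw [hv', Matrix.add_mulVec, Matrix.one_mulVec, hv1, add_zero] at h
    exact h
  have e2 : (2 : ℂ) • w = c • w := by
    have h := congrArg (fun Z : Matrix (Idx g) (Idx g) ℂ => Z *ᵥ w) hc
    simp only [← Matrix.mulVec_mulVec, Matrix.smul_mulVec] at h
    have hw' : p *ᵥ w = w := hw
    rw [hw', Matrix.add_mulVec, Matrix.one_mulVec, hw1, ← two_smul ℂ w] at h
    exact h
  have c1 : c = 1 := by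
    have h : ((1 : ℂ) - c) • v = 0 := by rw [sub_smul, one_smul, ← e1, sub_self]
    rcases smul_eq_zero.1 h with h | h
    · exact (sub_eq_zero.1 h).symm
    · exact absurd h hv0
  have c2 : c = 2 := by
    have h : ((2 : ℂ) - c) • w = 0 := by rw [sub_smul, e2, sub_self]
    rcases smul_eq_zero.1 h with h | h
    · exact (sub_eq_zero.1 h).symm
    · exact absurd h hw0
  rw [c1] at c2
  norm_num at c2

/-- the action on a component is a scalar -/
theorem X_scalar (d : Dec A) (i : Fin d.k) {x : Matrix (Idx g) (Idx g) ℂ} {c : ℂ}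
    (h : x * d.p i = c • d.p i) : d.X x i = c • 1 := by
  ext a' a
  have h1 : x *ᵥ d.B ⟨i, (a, ⟨0, d.npos i⟩)⟩ = c • d.B ⟨i, (a, ⟨0, d.npos i⟩)⟩ := by
    have h2 := congrArg (fun Z : Matrix (Idx g) (Idx g) ℂ =>
      Z *ᵥ d.B ⟨i, (a, ⟨0, d.npos i⟩)⟩) h
    simp only [← Matrix.mulVec_mulVec, Matrix.smul_mulVec, d.hp, if_true] at h2
    exact h2
  rw [Dec.X, Matrix.of_apply, h1, map_smul, Finsupp.smul_apply, Module.Basis.repr_self,
    Matrix.smul_apply, Matrix.one_apply, Finsupp.single_apply]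
  by_cases haa : a' = a
  · rw [haa, if_pos rfl, if_pos rfl]
  · rw [if_neg haa, if_neg]
    intro h3
    apply haa
    have := congrArg (fun e : (Σ i, Fin (d.m i) × Fin (d.n i)) => (e.2.1 : ℕ)) h3
    exact Fin.ext this.symm

theorem scalar_of_X (d : Dec A) (i : Fin d.k) {x : Matrix (Idx g) (Idx g) ℂ} (hx : A.Comm x)
    {c : ℂ} (h : d.X x i = c • 1) : x * d.p i = c • d.p i := by
  refine d.ext_B fun l a b => ?_
  rw [← Matrix.mulVec_mulVec, Matrix.smul_mulVec, d.hp]
  by_cases hl : l = i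
  · subst hl
    rw [if_pos rfl, d.X_spec hx, h, Finset.sum_eq_single a]
    · rw [Matrix.smul_apply, Matrix.one_apply_eq, smul_eq_mul, mul_one]
    · intro a' _ ha'
      rw [Matrix.smul_apply, Matrix.one_apply_ne ha', smul_zero, zero_smul]
    · intro h'
      exact absurd (Finset.mem_univ _) h'
  · rw [if_neg (show ¬ (⟨l, (a, b)⟩ : Σ i, Fin (d.m i) × Fin (d.n i)).1 = i from hl),
      Matrix.mulVec_zero, smul_zero]

/-- the conjugates of `μ(2)`: elements of the group which are scalar on a component if and only if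
the conjugate of the component is not mixed -/
theorem exists_mu (hHPI : Stmt_HPI) (h1 : GB1 @MTg) (hGal : Stmt_Gal3) (d : Dec A)
    (σ : ℂ ≃ₐ[ℚ] ℂ) : ∃ q ∈ MTg A, ∀ i : Fin d.k,
      (∃ c : ℂ, d.X q.1.val i = c • 1) ↔ ¬ A.Mixed ((d.p i).map σ) := by
  obtain ⟨π, -, hk, hb, hmu, hex, hmem⟩ := hHPI g A
  obtain ⟨z, hz⟩ : ∃ z : ℂˣ, z.val = 2 := ⟨Units.mk0 2 two_ne_zero, rfl⟩
  obtain ⟨x, hx⟩ := hex z
  have hxv : x.val = 1 + π := by
    rw [(hmu z x).1 hx, hz]
    norm_num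
  let q : GL (Idx g) ℂ × ℂˣ := (⟨x.val.map σ.symm, (x⁻¹).val.map σ.symm, by
      rw [← map_mul', ← Units.val_mul, mul_inv_cancel, Units.val_one, map_one'], by
      rw [← map_mul', ← Units.val_mul, inv_mul_cancel, Units.val_one, map_one']⟩, z)
  have hqv : q.1.val = (1 + π).map σ.symm := by
    change x.val.map σ.symm = _
    rw [hxv]
  have hq : q ∈ MTg A := by
    refine hmem σ.symm z q ?_ rfl
    rw [hqv, hz, map_add', map_one']
    norm_num
  have hC : A.Comm q.1.val := fun α hα => (h1 g A q hq).1 α hα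
  have hqσ : q.1.val.map σ = 1 + π := by rw [hqv, map_symm]
  refine ⟨q, hq, fun i => ⟨?_, ?_⟩⟩
  · rintro ⟨c, hc⟩
    have h2 := scalar_of_X d i hC hc
    have h3 := congrArg (fun Z : Matrix (Idx g) (Idx g) ℂ => Z.map σ) h2
    simp only [map_mul', map_smul', hqσ] at h3
    exact not_mixed_of_scalar hk hb h3
  · intro hm
    obtain ⟨c, hc⟩ := scalar_of_not_mixed hk hb ((hGal g A (d.p i) (d.isComp i)).1 σ).1 hm
    have h3 := congrArg (fun Z : Matrix (Idx g) (Idx g) ℂ => Z.map σ.symm) hc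
    simp only [map_mul', map_smul', map_symm'] at h3
    rw [← hqv] at h3
    exact ⟨_, X_scalar d i h3⟩

end HLNK_

open LnkX HLNK_ in
theorem hlnk_proof (hHPI : Stmt_HPI) (h1 : GB1 @MTg) (hIrrX : GIRRX @MTg) (hFinX : GFINX @MTg)
    (hForm : Stmt_Form) (hGal : Stmt_Gal3) (_hRos : Stmt_Ros) : Stmt_HLNK := by
  classical
  intro g A hA d i j hi hj hij hcc P hP
  by_contra hcon
  push Not at hcon
  have hcomm : ∀ q ∈ MTg A, A.Comm q.1.val := fun q hq α hα => (h1 g A q hq).1 α hα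
  -- semi-invariance
  have hsemi : ∀ q ∈ MTg A, ∃ a : ℂ, a ≠ 0 ∧ d.X q.1.val i * P * d.X (q.1⁻¹).val j = a • P ∧
      d.X q.1.val i * P = a • (P * d.X q.1.val j) := by
    intro q hq
    obtain ⟨a, ha⟩ := hcon q hq
    have hC := hcomm q hq
    have h2 : d.X q.1.val i * P = a • (P * d.X q.1.val j) := by
      have h3 := congrArg (fun Z => Z * d.X q.1.val j) ha
      simp only [Matrix.mul_assoc, (d.X_inv hC j).2, Matrix.mul_one, Matrix.smul_mul] at h3
      exact h3
    refine ⟨a, fun ha0 => hP ?_, ha, h2⟩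
    rw [ha0, zero_smul] at h2
    have h3 := congrArg (fun Z => d.X (q.1⁻¹).val i * Z) h2
    simp only [← Matrix.mul_assoc, (d.X_inv hC i).2, Matrix.one_mul, Matrix.mul_zero] at h3
    exact h3
  have hker : LinearMap.ker P.mulVecLin = ⊥ := by
    rcases hIrrX g A d j (LinearMap.ker P.mulVecLin) (fun q hq v hv => by
      obtain ⟨a, ha0, -, ha⟩ := hsemi q hq
      rw [LinearMap.mem_ker, Matrix.mulVecLin_apply] at hv ⊢
      have h2 := congrArg (fun Z => Z *ᵥ v) ha
      simp only [← Matrix.mulVec_mulVec, hv, Matrix.mulVec_zero, Matrix.smul_mulVec] at h2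
      exact (smul_eq_zero.1 h2.symm).resolve_left ha0) with h2 | h2
    · exact h2
    · exfalso
      apply hP
      have h3 : P.mulVecLin = 0 := LinearMap.ker_eq_top.1 h2
      ext a b
      have h5 := congrFun (LinearMap.congr_fun h3 (Pi.single b 1)) a
      simpa using h5
  obtain ⟨P', hPP', hP'P⟩ : ∃ P' : Matrix (Fin (d.m j)) (Fin (d.m i)) ℂ,
      P * P' = 1 ∧ P' * P = 1 := by
    have hfr : Module.finrank ℂ (Fin (d.m j) → ℂ) = Module.finrank ℂ (Fin (d.m i) → ℂ) := by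
      rw [Module.finrank_fin_fun, Module.finrank_fin_fun, hi, hj]
    let e := LinearEquiv.ofInjectiveOfFinrankEq P.mulVecLin (LinearMap.ker_eq_bot.1 hker) hfr
    refine ⟨LinearMap.toMatrix' e.symm.toLinearMap, ?_, ?_⟩
    · have h2 : (P * LinearMap.toMatrix' e.symm.toLinearMap).toLin' =
          (1 : Matrix (Fin (d.m i)) (Fin (d.m i)) ℂ).toLin' := by
        rw [Matrix.toLin'_mul, Matrix.toLin'_toMatrix', Matrix.toLin'_one]
        refine LinearMap.ext fun v => ?_
        exact e.apply_symm_apply v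
      exact Matrix.toLin'.injective h2
    · have h2 : (LinearMap.toMatrix' e.symm.toLinearMap * P).toLin' =
          (1 : Matrix (Fin (d.m j)) (Fin (d.m j)) ℂ).toLin' := by
        rw [Matrix.toLin'_mul, Matrix.toLin'_toMatrix', Matrix.toLin'_one]
        refine LinearMap.ext fun v => ?_
        exact e.symm_apply_apply v
      exact Matrix.toLin'.injective h2
  by_cases hreal : cc (d.p i) = d.p i ∧ cc (d.p j) = d.p j
  · -- both components are real
    obtain ⟨hri, hrj⟩ := hreal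
    apply hP
    refine (hFinX g A d).1 i j hij P ?_
    refine Set.Finite.subset (Set.toFinite {P, -P}) ?_
    rintro Y ⟨q, hq, rfl⟩
    obtain ⟨a, ha0, ha, ha'⟩ := hsemi q hq
    have hC := hcomm q hq
    have hs := (h1 g A q hq).2
    have hdi := (hForm g A d).1 i hi hri q.1.val q.2.val hC hs
    have hdj := (hForm g A d).1 j hj hrj q.1.val q.2.val hC hs
    have hdet : d.X q.1.val i = a • (P * d.X q.1.val j * P') := by
      have h2 := congrArg (fun Z => Z * P') ha'
      simp only [Matrix.mul_assoc, hPP', Matrix.mul_one, Matrix.smul_mul] at h2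
      rw [h2, Matrix.mul_assoc]
    have h2 := congrArg Matrix.det hdet
    rw [Matrix.det_smul, Matrix.det_conj_of_mul_eq_one hPP' hP'P, hdi, hdj, Fintype.card_fin, hi] at h2
    have h3 : a ^ 2 = 1 := by
      have hν : (q.2 : ℂ) ≠ 0 := q.2.ne_zero
      exact mul_right_cancel₀ hν (by rw [one_mul]; exact h2.symm)
    rw [ha]
    have h3' : (a - 1) * (a + 1) = 0 := by linear_combination h3
    rcases mul_eq_zero.1 h3' with h5 | h5
    · left
      rw [sub_eq_zero.1 h5, one_smul]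
    · right
      rw [eq_neg_of_add_eq_zero_left h5, neg_smul, one_smul]
      rfl
  · -- one of them is not real
    have hdimi : A.comDim (d.p i) = 4 := by rw [d.dim, hi]; norm_num
    have hdimj : A.comDim (d.p j) = 4 := by rw [d.dim, hj]; norm_num
    have hpij : d.p j ≠ d.p i := fun h => hij (d.p_injective h).symm
    obtain ⟨σ, hσ⟩ : ∃ σ : ℂ ≃ₐ[ℚ] ℂ, ¬ (A.Mixed ((d.p i).map σ) ↔ A.Mixed ((d.p j).map σ)) := by
      by_cases hri : cc (d.p i) = d.p i
      · have hrj : cc (d.p j) ≠ d.p j := fun h => hreal ⟨hri, h⟩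
        obtain ⟨σ, hσ⟩ := hA.sep (d.p j) (d.p i) (d.isComp j) (d.isComp i) hdimj hdimi hrj hpij.symm
          (fun h => hpij (by
            have h2 := congrArg cc h
            rw [LnkX.cc_cc, hri] at h2
            exact h2.symm))
        exact ⟨σ, fun h => hσ h.symm⟩
      · exact hA.sep (d.p i) (d.p j) (d.isComp i) (d.isComp j) hdimi hdimj hri hpij hcc
    apply hσ
    obtain ⟨q, hq, hmix⟩ := exists_mu hHPI h1 hGal d σ
    obtain ⟨a, ha0, -, ha⟩ := hsemi q hq
    have key : (∃ c : ℂ, d.X q.1.val i = c • 1) ↔ (∃ c : ℂ, d.X q.1.val j = c • 1) := by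
      constructor
      · rintro ⟨c, hc⟩
        refine ⟨a⁻¹ * c, ?_⟩
        rw [hc] at ha
        have h2 := congrArg (fun Z => P' * Z) ha
        simp only [Matrix.smul_mul, Matrix.one_mul, Matrix.mul_smul, ← Matrix.mul_assoc, hP'P] at h2
        have h3 := congrArg (fun Z => a⁻¹ • Z) h2
        simp only [smul_smul, inv_mul_cancel₀ ha0, one_smul] at h3
        exact h3.symm
      · rintro ⟨c, hc⟩
        refine ⟨a * c, ?_⟩
        rw [hc] at ha
        have h2 := congrArg (fun Z => Z * P') ha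
        simp only [Matrix.mul_assoc, hPP', Matrix.mul_one, Matrix.smul_mul, Matrix.mul_smul,
          smul_smul] at h2
        exact h2
    have hi' := hmix i
    have hj' := hmix j
    constructor
    · intro hm
      by_contra hm'
      exact (hi'.1 (key.2 (hj'.2 hm'))) hm
    · intro hm
      by_contra hm'
      exact (hj'.1 (key.1 (hi'.2 hm'))) hm

end

end Pool.Agent.SPH
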