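import Pool.Agent.SPH.Stmts
import Pool.Agent.DRB.T1e

/-!
# SPH, module HT1E: a rational subspace of `H_1(A)` stable under the Mumford-Tate group is the image
of a symmetric idempotent endomorphism (near copy of DRB/T1e.lean)
-/

set_option autoImplicit false

open scoped BigOperators Topology
open Matrix

namespace Pool.Agent.SPH

open Pool.Agent.DRB
open Pool.Agent.DRB.SigX (kk kb mem_kk mem_kb)

noncomputable section

namespace HT1E_

open Pool.Agent.DRB.PosX Pool.Agent.DRB.T1EX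

variable {g : ℕ} (A : AbVar g)

/-- A rational matrix preserving `F^0` is an endomorphism. -/
theorem isEnd_of (hM : SPF.Stmt_HM2) (α : Matrix (Idx g) (Idx g) ℚ)
    (hF : ∀ v, zz A v = 0 → zz A (AbVar.toC α *ᵥ v) = 0) : A.IsEnd α := by
  have hP : IsUnit A.per.det := A.nondeg
  obtain ⟨ρ, hρ⟩ : ∃ ρ, ρ = A.per * AbVar.toC α * A.per⁻¹ := ⟨_, rfl⟩
  have hρP : ρ * A.per = A.per * AbVar.toC α := by
    rw [hρ, Matrix.mul_assoc, Matrix.nonsing_inv_mul _ hP, Matrix.mul_one]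
  have h0 : ∀ i j, ρ (Sum.inl i) (Sum.inr j) = 0 := by
    intro i j
    have h1 : zz A (A.per⁻¹ *ᵥ Pi.single (Sum.inr j) 1) = 0 := by
      unfold zz
      rw [Matrix.mulVec_mulVec, Matrix.mul_nonsing_inv _ hP, Matrix.one_mulVec]
      funext k
      simp [pr]
    have h2 := congrFun (hF _ h1) i
    unfold zz at h2
    rw [Matrix.mulVec_mulVec, Matrix.mulVec_mulVec, Matrix.mulVec_single_one] at h2
    rw [hρ]
    simpa [pr, Matrix.mul_assoc] using h2
  have hpr : ∀ w : Idx g → ℂ, (Matrix.of fun i k => ρ (Sum.inl i) (Sum.inl k)) *ᵥ pr w =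
      pr (ρ *ᵥ w) := by
    intro w
    funext i
    simp only [pr, Matrix.mulVec, dotProduct, Matrix.of_apply, Fintype.sum_sum_type, h0, zero_mul,
      Finset.sum_const_zero, add_zero]
  have hlat : ∀ j, A.lat j = pr (A.per *ᵥ Pi.single j 1) := by
    intro j
    have h1 := zz_eq A (Pi.single j 1)
    unfold zz at h1
    rw [h1]
    simp [Pi.single_apply]
  obtain ⟨ρ', ha, hb, hc⟩ := hM g g A A (Matrix.of fun i k => ρ (Sum.inl i) (Sum.inl k)) α (by
    intro j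
    rw [hlat j, hpr, Matrix.mulVec_mulVec, hρP, ← Matrix.mulVec_mulVec]
    have h1 := zz_eq A (AbVar.toC α *ᵥ Pi.single j 1)
    unfold zz at h1
    rw [h1, Matrix.mulVec_single_one]
    rfl)
  exact ⟨ρ', ha, hb, hc⟩

/-- The splitting of a subspace stable under the Mumford-Tate group. -/
theorem split_of (hHPI : Stmt_HPI) (D : Submodule ℂ (Idx g → ℂ))
    (hst : ∀ p ∈ MTg A, D.map p.1.val.mulVecLin ≤ D) :
    ∀ v ∈ D, ∃ a ∈ D, ∃ b ∈ D, v = a + b ∧ zz A a = 0 ∧ zz A (cv b) = 0 := by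
  obtain ⟨π, hππ, hk, hb, hmu, hex, hmem⟩ := hHPI g A
  intro v hv
  obtain ⟨x, hx⟩ := hex (Units.mk0 2 two_ne_zero)
  have hx2 := (hmu _ _).1 hx
  have hq := hmem AlgEquiv.refl (Units.mk0 2 two_ne_zero) (x, Units.mk0 2 two_ne_zero) (by
    rw [hx2]
    congr 2) rfl
  have h1 : x.val *ᵥ v ∈ D := hst _ hq ⟨v, hv, rfl⟩
  rw [hx2, Matrix.add_mulVec, Matrix.one_mulVec, Matrix.smul_mulVec] at h1
  have h2 : ((Units.mk0 (2 : ℂ) two_ne_zero).val - 1) • (π *ᵥ v) = π *ᵥ v := by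
    have : ((Units.mk0 (2 : ℂ) two_ne_zero).val - 1) = 1 := by
      rw [Units.val_mk0]
      norm_num
    rw [this, one_smul]
  rw [h2] at h1
  have h3 : π *ᵥ v ∈ D := by
    have := D.sub_mem h1 hv
    rwa [add_sub_cancel_left] at this
  refine ⟨v - π *ᵥ v, D.sub_mem hv h3, π *ᵥ v, h3, (sub_add_cancel _ _).symm, ?_, ?_⟩
  · have h4 : v - π *ᵥ v ∈ kk A := by
      rw [hk, Matrix.mulVec_sub, Matrix.mulVec_mulVec, hππ, sub_self]
    exact h4
  · have h4 : π *ᵥ v ∈ kb A := by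
      rw [hb, Matrix.mulVec_mulVec, hππ]
    exact h4

end HT1E_

open Pool.Agent.DRB.PosX Pool.Agent.DRB.T1EX HT1E_ in
theorem ht1e_proof (h1 : Stmt_HPI) (h2 : SPF.Stmt_HM2) (h3 : DRB.Stmt_Herm) (h4 : DRB.Stmt_Leg) :
    Stmt_HT1E := by
  intro g A D hrat hst
  have hT := split_of A h1 D hst
  have hM := h2
  have hH := h3
  have hL := h4
  clear h1 h2 h3 h4
  obtain ⟨hint, hleg, hdet, hsk⟩ := hL g A
  obtain ⟨h, hh, hpos, hE⟩ := hH g A
  have hP : IsUnit A.per.det := A.nondeg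
  -- the basis of D
  obtain ⟨d, hd⟩ : ∃ d, Module.finrank ℂ D = d := ⟨_, rfl⟩
  obtain ⟨N, hNq, hNinj, hND⟩ := exists_mat D (fun z => ∃ q : ℚ, z = q) d hd hrat
  -- rational versions
  choose Nq hNq' using hNq
  choose rz hrz using hint
  let φ : ℚ →+* ℂ := algebraMap ℚ ℂ
  obtain ⟨Rq, hRq⟩ : ∃ Rq : Matrix (Idx g) (Idx g) ℚ, Rq.map φ = A.riem := by
    refine ⟨Matrix.of fun i j => (rz i j : ℚ), ?_⟩
    ext i j
    simp [φ, hrz i j]
  obtain ⟨N0, hN0⟩ : ∃ N0 : Matrix (Idx g) (Fin d) ℚ, N0.map φ = N := by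
    refine ⟨Matrix.of fun i j => Nq i j, ?_⟩
    ext i j
    simp [φ, hNq' i j]
  obtain ⟨G0, hG0⟩ : ∃ G0 : Matrix (Fin d) (Fin d) ℚ, G0 = N0ᵀ * Rq * N0 := ⟨_, rfl⟩
  have hG : G0.map φ = Nᵀ * A.riem * N := by
    rw [hG0, Matrix.map_mul, Matrix.map_mul, hRq, hN0, ← hN0, Matrix.transpose_map]
  -- nondegeneracy
  have hnd : ∀ v ∈ D, (∀ w ∈ D, w ⬝ᵥ (A.riem *ᵥ v) = 0) → v = 0 := by
    intro v hv hw
    obtain ⟨a, ha, b, hb, rfl, hza, hzb⟩ := hT v hv
    have h1 : ∀ w ∈ D, (a + b) ⬝ᵥ (A.riem *ᵥ w) = 0 := by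
      intro w hw'
      rw [skew A hsk, hw w hw', neg_zero]
    have ha0 : a = 0 := by
      have h2 := h1 (cv a) (cv_mem hrat ha)
      rw [add_dotProduct, perp2 A hh hE hza hzb, add_zero] at h2
      exact defK A hh hpos hE hza h2
    have hb0 : b = 0 := by
      have h2 := h1 (cv b) (cv_mem hrat hb)
      rw [add_dotProduct, perp A hh hE hza hzb, zero_add] at h2
      exact defKb A hh hpos hE hsk hzb h2
    rw [ha0, hb0, add_zero]
  have hGdet : (G0.map φ).det ≠ 0 := by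
    apply det_ne_zero_of_inj
    intro u hu
    apply hNinj
    apply hnd _ ((hND _).2 ⟨u, rfl⟩)
    intro w hw
    obtain ⟨y, rfl⟩ := (hND w).1 hw
    rw [hG] at hu
    have h1 : (N *ᵥ y) ⬝ᵥ (A.riem *ᵥ (N *ᵥ u)) = y ⬝ᵥ ((Nᵀ * A.riem * N) *ᵥ u) := by
      rw [← Matrix.mulVec_mulVec, ← Matrix.mulVec_mulVec, Matrix.dotProduct_mulVec y,
        Matrix.vecMul_transpose]
    rw [h1, hu, dotProduct_zero]
  obtain ⟨hGi1, hGi2⟩ := inv_sub φ G0 hGdet
  set Gi : Matrix (Fin d) (Fin d) ℂ := G0⁻¹.map φ with hGi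
  rw [hG] at hGi1 hGi2
  -- the endomorphism
  set α : Matrix (Idx g) (Idx g) ℚ := N0 * G0⁻¹ * N0ᵀ * Rq with hα
  have hαC : AbVar.toC α = N * Gi * Nᵀ * A.riem := by
    show (N0 * G0⁻¹ * N0ᵀ * Rq).map φ = _
    rw [Matrix.map_mul, Matrix.map_mul, Matrix.map_mul, hRq, hN0, ← hN0, Matrix.transpose_map]
  have hαN : AbVar.toC α * N = N := by
    rw [hαC]
    have : N * Gi * Nᵀ * A.riem * N = N * (Gi * (Nᵀ * A.riem * N)) := by
      simp only [Matrix.mul_assoc]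
    rw [this, hGi2, Matrix.mul_one]
  have hαD : ∀ v, AbVar.toC α *ᵥ v ∈ D := by
    intro v
    rw [hND]
    refine ⟨(Gi * Nᵀ * A.riem) *ᵥ v, ?_⟩
    rw [Matrix.mulVec_mulVec, hαC]
    simp only [Matrix.mul_assoc]
  have hfix : ∀ v, v ∈ D → AbVar.toC α *ᵥ v = v := by
    intro v hv
    obtain ⟨u, rfl⟩ := (hND v).1 hv
    rw [Matrix.mulVec_mulVec, hαN]
  have hGit : Giᵀ = - Gi := by
    have h1 : (Nᵀ * A.riem * N)ᵀ = - (Nᵀ * A.riem * N) := by
      rw [Matrix.transpose_mul, Matrix.transpose_mul, Matrix.transpose_transpose, hsk,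
        Matrix.neg_mul, Matrix.mul_neg, Matrix.mul_assoc]
    have h2 := congrArg Matrix.transpose hGi1
    rw [Matrix.transpose_mul, h1, Matrix.transpose_one, Matrix.mul_neg] at h2
    have h3 : Giᵀ * (Nᵀ * A.riem * N) * Gi = Giᵀ := by
      rw [Matrix.mul_assoc, hGi1, Matrix.mul_one]
    rw [← h3, neg_eq_iff_eq_neg.1 h2, Matrix.neg_mul, Matrix.one_mul]
  have hros : A.IsRosati α α := by
    unfold AbVar.IsRosati
    rw [hαC, Matrix.transpose_mul, Matrix.transpose_mul, Matrix.transpose_mul,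
      Matrix.transpose_transpose, hsk, hGit]
    simp only [Matrix.neg_mul, Matrix.mul_neg, neg_neg, Matrix.mul_assoc]
  have hidem : α * α = α := by
    have h1 : AbVar.toC (α * α) = AbVar.toC α := by
      have h2 : AbVar.toC α * (N * (Gi * Nᵀ * A.riem)) = N * (Gi * Nᵀ * A.riem) := by
        rw [← Matrix.mul_assoc, hαN]
      have h3 : N * (Gi * Nᵀ * A.riem) = AbVar.toC α := by
        rw [hαC]
        simp only [Matrix.mul_assoc]
      rw [h3] at h2
      rw [AbVar.toC_mul, h2]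
    ext i j
    have h2 := congrFun (congrFun h1 i) j
    simp only [AbVar.toC, Matrix.map_apply] at h2
    exact (algebraMap ℚ ℂ).injective h2
  -- the Hodge filtration
  have hF : ∀ v, zz A v = 0 → zz A (AbVar.toC α *ᵥ v) = 0 := by
    intro v hv
    obtain ⟨a, ha, b, hb, hab, hza, hzb⟩ := hT _ (hαD v)
    have h1 : ∀ w ∈ D, w ⬝ᵥ (A.riem *ᵥ (AbVar.toC α *ᵥ v)) = w ⬝ᵥ (A.riem *ᵥ v) := by
      intro w hw
      rw [Matrix.mulVec_mulVec, ← hros, ← Matrix.mulVec_mulVec, Matrix.dotProduct_mulVec w,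
        Matrix.vecMul_transpose, hfix w hw]
    have h2 := h1 (cv b) (cv_mem hrat hb)
    rw [hab, skew A hsk, skew A hsk (cv b) v, add_dotProduct, perp A hh hE hza hzb,
      perp A hh hE hv hzb, zero_add, neg_zero, neg_eq_zero] at h2
    have hb0 := defKb A hh hpos hE hsk hzb h2
    rw [hab, hb0, add_zero]
    exact hza
  refine ⟨α, isEnd_of A hM α hF, hidem, hros, fun v => ⟨hfix v, fun hv => ?_⟩⟩
  rw [← hv]
  exact hαD v

end

end Pool.Agent.SPH
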