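import Pool.Agent.SPG.Assembly4
import Pool.Agent.SPH.GB3T
import Pool.Agent.SPH.GFinX
import Pool.Agent.SPH.GIrr3
import Pool.Agent.SPH.GIrrX
import Pool.Agent.SPH.GMain
import Pool.Agent.SPH.H54BH
import Pool.Agent.SPH.HB
import Pool.Agent.SPH.HFIN
import Pool.Agent.SPH.HLNK
import Pool.Agent.SPH.HPI
import Pool.Agent.SPH.HT1E
import Pool.Agent.SPH.HTORS
import Pool.Agent.SPH.H54AH

/-!
# De Rham-Betti conjecture: the Mumford-Tate side, assembly
-/

namespace Pool.Agent.SPH

open Pool.Agent.DRB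

theorem hb1C : GB1 @MTg := hb1_proof leg_proof

theorem hfinC : GFIN @MTg := hfin_proof hpi_proof SPF.p_HM2 descqC

theorem ht1eC : GT1E @MTg := ht1e_proof hpi_proof SPF.p_HM2 (herm_proof leg_proof) leg_proof

theorem hfinxC : GFINX @MTg := gfinx_proof hfinC hb1C

theorem hirr3C : GIRR3 @MTg :=
  girr3_proof ht1eC hfinC hb1C hb4_proof descqC pos2C gal3C leg_proof

theorem hirrxC : GIRRX @MTg := girrx_proof hirr3C hb1C

theorem htorsC : GTORS @MTg := htors_proof hpi_proof hirrxC gal3C

theorem hlnkC : GLNK @MTg := hlnk_proof hpi_proof hb1C hirrxC hfinxC formC gal3C rosC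

theorem h54ahC : GH54A @MTg :=
  h54ah_proof hpi_proof hb1C hb4_proof hfinxC formC gal3C rosC

theorem h54bhC : GH54B @MTg := h54bh_proof hpi_proof SPG.pholC

/-- The block theorem for the Mumford-Tate group. -/
theorem hmainC : GMAIN @MTg :=
  gmain_proof decC gal3C mixC formC hfinxC hirrxC htorsC hlnkC h54ahC h54bhC trans_proof gt3C hb1C

/-- The main theorem. -/
theorem main6C : MainStatement6 :=
  main6_proof SPG.main5C hmainC gb2_proof (gb3t_proof descaC)

end Pool.Agent.SPH
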